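import Pool.Agent.TFB.Final
import Pool.Agent.TFN.Defs

/-! X10: the smallest number of cycles. -/

namespace Pool.Agent.TFX

open List Pool.Agent.TF82 Pool.Agent.TFC Pool.Agent.TFB Pool.Agent.TFN

universe u

set_option linter.unusedSectionVars false
set_option linter.unusedVariables false

variable {V : Type u} [DecidableEq V]

theorem unc_add [Fintype V] {G : SimpleGraph V} {L : List (List V)} (hL : Fam G L) :
    (unc L).card + L.flatten.length = Fintype.card V := by
  have h1 : unc L = Finset.univ \ L.flatten.toFinset := by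
    ext x
    rw [mem_unc, Finset.mem_sdiff, List.mem_toFinset]
    simp
  have h2 : L.flatten.toFinset.card = L.flatten.length :=
    List.toFinset_card_of_nodup hL.nod
  have h3 := Finset.card_sdiff_add_card_inter (Finset.univ : Finset V) L.flatten.toFinset
  rw [Finset.univ_inter, Finset.card_univ, h2, ← h1] at h3
  exact h3

/-- take `r` minimal such that some family of at most `r` cycles has at most
`b + (k - r) * Lo` uncovered vertices, and a family of at most `r` cycles that covers the most -/
theorem choose_r [Fintype V] {G : SimpleGraph V} {k b Lo : ℕ} {F0 : List (List V)}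
    (hF0 : Fam G F0) (hk : F0.length ≤ k) (hu : (unc F0).card ≤ b) :
    ∃ F : List (List V), IsMax G F.length F ∧ F.length ≤ k ∧ NoMerge G F Lo ∧
      (unc F).card ≤ b + k * Lo := by
  classical
  have hex : ∃ r, r ≤ k ∧ ∃ F' : List (List V), Fam G F' ∧ F'.length ≤ r ∧
      (unc F').card ≤ b + (k - r) * Lo := by
    refine ⟨k, le_rfl, F0, hF0, hk, ?_⟩
    rw [Nat.sub_self, Nat.zero_mul, Nat.add_zero]
    exact hu
  obtain ⟨r, hr⟩ : ∃ r, r = Nat.find hex := ⟨_, rfl⟩
  obtain ⟨hrk, F', hF', hF'l, hF'u⟩ := Nat.find_spec hex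
  rw [← hr] at hrk hF'l hF'u
  have hmin : ∀ q < r, ¬ (q ≤ k ∧ ∃ F' : List (List V), Fam G F' ∧ F'.length ≤ q ∧
      (unc F').card ≤ b + (k - q) * Lo) := fun q hq => Nat.find_min hex (by rw [← hr]; exact hq)
  obtain ⟨F, hM⟩ := exists_isMax G r
  have hFu : (unc F).card ≤ b + (k - r) * Lo := by
    have h1 := hM.max F' hF' hF'l
    have h2 := unc_add hF'
    have h3 := unc_add hM.fam
    omega
  have hlen : F.length = r := by
    by_contra hne
    have hlt : F.length < r := lt_of_le_of_ne hM.len hne
    refine hmin F.length hlt ⟨by omega, F, hM.fam, le_rfl, hFu.trans ?_⟩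
    exact Nat.add_le_add_left (Nat.mul_le_mul_right _ (by omega)) _
  refine ⟨F, by rw [hlen]; exact hM, by omega, ?_, hFu.trans ?_⟩
  · intro F'' hF'' hl
    by_contra hcon
    push Not at hcon
    have h2 := unc_add hF''
    have h3 := unc_add hM.fam
    refine hmin (r - 1) (by omega) ⟨by omega, F'', hF'', by omega, ?_⟩
    have h4 : k - (r - 1) = (k - r) + 1 := by omega
    rw [h4, Nat.add_mul, Nat.one_mul]
    omega
  · exact Nat.add_le_add_left (Nat.mul_le_mul_right _ (by omega)) _

/-- a family with no uncovered vertices is a cover -/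
theorem cov_of_unc [Fintype V] {G : SimpleGraph V} {k : ℕ} {F : List (List V)}
    (hF : Fam G F) (hk : F.length ≤ k) (hu : unc F = ∅) : Cov G k := by
  refine ⟨F, hk, hF.cyc, hF.nod, fun x => ?_⟩
  by_contra hx
  have h1 : x ∈ unc F := mem_unc.2 hx
  rw [hu] at h1
  exact absurd h1 (Finset.notMem_empty x)

end Pool.Agent.TFX
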