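import Mathlib

/-! X9: the final inequality. -/

namespace Pool.Agent.TFX

/-- `n` = order, `s` = number of predecessors, `m` = length of the cycle, `q` = `X.length`,
`r` = number of cycles, `S` = sum over `P`, `T` = sum over the chosen subset. -/
theorem arith {n e t k B r s m q S T sf : ℕ} (ht : 1 ≤ t) (hk : 1 ≤ k) (hr : 1 ≤ r) (hrk : r ≤ k)
    (hq : q + r = k + 2) (he : 16 * t * (k + 2) * (k + 1) * (k + 1) ≤ e)
    (hn : (e + B + t + k + 10) ^ 8 ≤ n)
    (h1 : n ≤ t * (sf + B + B ^ 2))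
    (h2 : sf ≤ r * (s + r * (2 * e * (m / (4 * e ^ 2) + 1))))
    (h3 : n ≤ 2 * t * (m + B)) (h4 : m ≤ n)
    (h5 : S ≤ (m / (q + 1) + 1) * (s + (q + 1) + (q + 1) ^ 2))
    (h6 : s * T ≤ q * S)
    (h7 : e * m ≤ e * T + (k + 1) * (n + e * B)) : False := by
  have he1 : 1 ≤ e := by
    refine le_trans ?_ he
    have : 0 < 16 * t * (k + 2) * (k + 1) * (k + 1) := by positivity
    omega
  have hq1 : q ≤ k + 1 := by omega
  -- real numbers
  have Rt : (1 : ℝ) ≤ t := by exact_mod_cast ht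
  have Rk : (1 : ℝ) ≤ k := by exact_mod_cast hk
  have Rr : (1 : ℝ) ≤ r := by exact_mod_cast hr
  have Rrk : (r : ℝ) ≤ k := by exact_mod_cast hrk
  have Re1 : (1 : ℝ) ≤ e := by exact_mod_cast he1
  have Rq : (q : ℝ) ≤ k + 1 := by exact_mod_cast hq1
  have Rq0 : (0 : ℝ) ≤ q := Nat.cast_nonneg q
  have RB : (0 : ℝ) ≤ B := Nat.cast_nonneg B
  have Rs : (0 : ℝ) ≤ s := Nat.cast_nonneg s
  have Rm : (0 : ℝ) ≤ m := Nat.cast_nonneg m
  have RT : (0 : ℝ) ≤ T := Nat.cast_nonneg T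
  have RS : (0 : ℝ) ≤ S := Nat.cast_nonneg S
  have Re : 16 * (t : ℝ) * (k + 2) * (k + 1) * (k + 1) ≤ e := by exact_mod_cast he
  have Rn : ((e : ℝ) + B + t + k + 10) ^ 8 ≤ n := by exact_mod_cast hn
  have R1 : (n : ℝ) ≤ t * (sf + B + B ^ 2) := by exact_mod_cast h1
  have R3 : (n : ℝ) ≤ 2 * t * (m + B) := by exact_mod_cast h3
  have R4 : (m : ℝ) ≤ n := by exact_mod_cast h4
  have R6 : (s : ℝ) * T ≤ q * S := by exact_mod_cast h6
  have R7 : (e : ℝ) * m ≤ e * T + (k + 1) * (n + e * B) := by exact_mod_cast h7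
  have d1 : ((m / (4 * e ^ 2) : ℕ) : ℝ) ≤ m / (4 * e ^ 2) := by
    have := Nat.cast_div_le (α := ℝ) (m := m) (n := 4 * e ^ 2)
    push_cast at this
    exact this
  have d2 : ((m / (q + 1) : ℕ) : ℝ) ≤ m / (q + 1) := by
    have := Nat.cast_div_le (α := ℝ) (m := m) (n := q + 1)
    push_cast at this
    exact this
  have R2 : (sf : ℝ) ≤ r * (s + r * (2 * e * (m / (4 * e ^ 2) + 1))) := by
    have h2' : (sf : ℝ) ≤ r * (s + r * (2 * e * (((m / (4 * e ^ 2) : ℕ) : ℝ) + 1))) := by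
      exact_mod_cast h2
    refine h2'.trans ?_
    gcongr
  have R5 : (S : ℝ) ≤ (m / (q + 1) + 1) * (s + (q + 1) + (q + 1) ^ 2) := by
    have h5' : (S : ℝ) ≤ (((m / (q + 1) : ℕ) : ℝ) + 1) * (s + (q + 1) + (q + 1) ^ 2) := by
      exact_mod_cast h5
    refine h5'.trans ?_
    gcongr
  clear h1 h2 h3 h4 h5 h6 h7 hn he d1 d2
  generalize (n : ℝ) = N at *
  generalize (m : ℝ) = m at *
  generalize (s : ℝ) = s at *
  generalize (sf : ℝ) = sf at *
  generalize (T : ℝ) = T at *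
  generalize (S : ℝ) = S at *
  generalize (B : ℝ) = B at *
  generalize (e : ℝ) = e at *
  generalize (t : ℝ) = t at *
  generalize (k : ℝ) = k at *
  generalize (q : ℝ) = q at *
  generalize (r : ℝ) = r at *
  obtain ⟨x, hx⟩ : ∃ x : ℝ, x = e + B + t + k + 10 := ⟨_, rfl⟩
  rw [← hx] at Rn
  have hx12 : 12 ≤ x := by linarith
  have xe : e ≤ x := by linarith
  have xB : B ≤ x := by linarith
  have xt : t ≤ x := by linarith
  have xk : k + 3 ≤ x := by linarith
  have hx0 : 0 ≤ x := by linarith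
  -- first part
  have a1 : sf ≤ k * s + k ^ 2 * (N / (2 * e) + 2 * e) := by
    have e0 : (2 * e * (m / (4 * e ^ 2) + 1)) = m / (2 * e) + 2 * e := by
      field_simp; ring
    rw [e0] at R2
    calc sf ≤ r * (s + r * (m / (2 * e) + 2 * e)) := R2
      _ ≤ k * (s + k * (N / (2 * e) + 2 * e)) := by gcongr
      _ = _ := by ring
  have a2 : t * k ^ 2 * (N / (2 * e)) ≤ N / 32 := by
    have : 16 * (t * k ^ 2) ≤ e := by
      refine le_trans ?_ Re
      have : k ^ 2 ≤ (k + 2) * (k + 1) * (k + 1) := by nlinarith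
      calc 16 * (t * k ^ 2) ≤ 16 * (t * ((k + 2) * (k + 1) * (k + 1))) := by gcongr
        _ = _ := by ring
    have hN : 0 ≤ N := by linarith
    rw [mul_div_assoc', div_le_div_iff₀ (by positivity) (by norm_num)]
    nlinarith [mul_le_mul_of_nonneg_left this hN]
  have a3 : N ≤ t * k * s + N / 32 + (2 * t * k ^ 2 * e + t * B + t * B ^ 2) := by
    calc N ≤ t * (sf + B + B ^ 2) := R1
      _ ≤ t * ((k * s + k ^ 2 * (N / (2 * e) + 2 * e)) + B + B ^ 2) := by gcongr
      _ = t * k * s + t * k ^ 2 * (N / (2 * e)) + (2 * t * k ^ 2 * e + t * B + t * B ^ 2) := by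
          ring
      _ ≤ _ := by linarith
  have a4 : 2 * t * k ^ 2 * e + t * B + t * B ^ 2 ≤ N / 32 := by
    have hk3 : k ≤ x := by linarith
    have b1 : 2 * t * k ^ 2 * e ≤ 2 * x * x ^ 2 * x := by gcongr
    have b2 : t * B ≤ x * x := by gcongr
    have b3 : t * B ^ 2 ≤ x * x ^ 2 := by gcongr
    have b4 : (x ^ 2 : ℝ) ≤ x ^ 4 := pow_le_pow_right₀ (by linarith) (by norm_num)
    have b5 : (x ^ 3 : ℝ) ≤ x ^ 4 := pow_le_pow_right₀ (by linarith) (by norm_num)
    have b6 : x ^ 4 * 12 ^ 4 ≤ x ^ 8 := by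
      calc x ^ 4 * 12 ^ 4 ≤ x ^ 4 * x ^ 4 := by gcongr
        _ = x ^ 8 := by ring
    have b7 : 0 ≤ x ^ 4 := by positivity
    have b8 : 2 * x * x ^ 2 * x = 2 * x ^ 4 := by ring
    have b9 : x * x = x ^ 2 := by ring
    have b10 : x * x ^ 2 = x ^ 3 := by ring
    rw [b8] at b1
    rw [b9] at b2
    rw [b10] at b3
    linarith
  have hN0 : 0 < N := by
    have : 0 < x ^ 8 := by positivity
    linarith
  have a5 : N ≤ 2 * t * k * s := by linarith
  have hs : 0 < s := by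
    by_contra h
    have : s = 0 := le_antisymm (not_lt.1 h) Rs
    rw [this] at a5
    linarith
  -- second part
  have c1 : (q + 1) * (s * T) ≤ q * ((m + (q + 1)) * (s + (q + 1) * (q + 2))) := by
    have : (q + 1) * S ≤ (m + (q + 1)) * (s + (q + 1) * (q + 2)) := by
      calc (q + 1) * S ≤ (q + 1) * ((m / (q + 1) + 1) * (s + (q + 1) + (q + 1) ^ 2)) := by gcongr
        _ = _ := by field_simp; ring
    calc (q + 1) * (s * T) ≤ (q + 1) * (q * S) := by gcongr
      _ = q * ((q + 1) * S) := by ring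
      _ ≤ _ := by gcongr
  have c2 : e * (s * m) ≤ e * (q * (m * ((q + 1) * (q + 2)))) +
      e * (q * ((q + 1) * (s + (q + 1) * (q + 2)))) + s * ((q + 1) * ((k + 1) * (N + e * B))) := by
    have f1 : ((q + 1) * s) * (e * m) ≤ ((q + 1) * s) * (e * T + (k + 1) * (N + e * B)) := by
      gcongr
    have f2 : e * ((q + 1) * (s * T)) ≤ e * (q * ((m + (q + 1)) * (s + (q + 1) * (q + 2)))) := by
      gcongr
    linarith [f1, f2]
  have hkx : k ≤ x := by linarith
  have hs1 : 1 ≤ s := by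
    by_contra h
    have h' : s ≤ 1 := le_of_lt (not_le.1 h)
    have : N ≤ 2 * x * x * 1 := a5.trans (by gcongr)
    have b6 : x ^ 2 * 12 ^ 6 ≤ x ^ 8 := by
      calc x ^ 2 * 12 ^ 6 ≤ x ^ 2 * x ^ 6 := by gcongr
        _ = x ^ 8 := by ring
    have b7 : 0 < x ^ 2 := by positivity
    have b8 : 2 * x * x * 1 = 2 * x ^ 2 := by ring
    rw [b8] at this
    linarith
  have g0 : q * ((q + 1) * (q + 2)) ≤ x ^ 3 := by
    calc q * ((q + 1) * (q + 2)) ≤ x * (x * x) := by
          gcongr <;> linarith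
      _ = x ^ 3 := by ring
  have t1 : e * (q * (m * ((q + 1) * (q + 2)))) ≤ e * s * (2 * x ^ 5) := by
    calc e * (q * (m * ((q + 1) * (q + 2)))) = e * (m * (q * ((q + 1) * (q + 2)))) := by ring
      _ ≤ e * ((2 * x * x * s) * x ^ 3) := by
          have : m ≤ 2 * x * x * s := R4.trans (a5.trans (by gcongr))
          gcongr
      _ = _ := by ring
  have t2 : e * (q * ((q + 1) * (s + (q + 1) * (q + 2)))) ≤ e * s * (x ^ 2 + x ^ 4) := by
    have q1 : q ≤ x := by linarith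
    have q2 : q + 1 ≤ x := by linarith
    have q3 : q + 2 ≤ x := by linarith
    calc e * (q * ((q + 1) * (s + (q + 1) * (q + 2)))) ≤ e * (x * (x * (s + x * x))) := by
          gcongr
      _ = e * (s * x ^ 2 + 1 * x ^ 4) := by ring
      _ ≤ e * (s * x ^ 2 + s * x ^ 4) := by gcongr
      _ = _ := by ring
  have t3 : s * ((q + 1) * ((k + 1) * (N + e * B))) ≤ e * s * (N / (32 * t) + x ^ 3) := by
    have q2 : q + 1 ≤ k + 2 := by linarith
    have u1 : (k + 2) * (k + 1) ≤ e / (32 * t) := by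
      rw [le_div_iff₀ (by positivity)]
      refine le_trans ?_ Re
      have : 2 ≤ k + 1 := by linarith
      calc (k + 2) * (k + 1) * (32 * t) = 16 * t * (k + 2) * (k + 1) * 2 := by ring
        _ ≤ 16 * t * (k + 2) * (k + 1) * (k + 1) := by gcongr
    have u2 : (k + 2) * (k + 1) * B ≤ x ^ 3 := by
      calc (k + 2) * (k + 1) * B ≤ x * x * x := by gcongr <;> linarith
        _ = x ^ 3 := by ring
    calc s * ((q + 1) * ((k + 1) * (N + e * B)))
        ≤ s * ((k + 2) * ((k + 1) * (N + e * B))) := by gcongr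
      _ = s * (((k + 2) * (k + 1)) * N) + e * s * ((k + 2) * (k + 1) * B) := by ring
      _ ≤ s * ((e / (32 * t)) * N) + e * s * x ^ 3 := by gcongr
      _ = _ := by field_simp
  have hes : 0 < e * s := by positivity
  have t4 : m ≤ 2 * x ^ 5 + (x ^ 2 + x ^ 4) + (N / (32 * t) + x ^ 3) := by
    have : (e * s) * m ≤ (e * s) * (2 * x ^ 5 + (x ^ 2 + x ^ 4) + (N / (32 * t) + x ^ 3)) := by
      calc (e * s) * m = e * (s * m) := by ring
        _ ≤ _ := c2
        _ ≤ e * s * (2 * x ^ 5) + e * s * (x ^ 2 + x ^ 4) + e * s * (N / (32 * t) + x ^ 3) := by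
            linarith
        _ = _ := by ring
    exact le_of_mul_le_mul_left this hes
  have t5 : m + B ≤ 6 * x ^ 5 + N / (32 * t) := by
    have b2 : (x ^ 2 : ℝ) ≤ x ^ 5 := pow_le_pow_right₀ (by linarith) (by norm_num)
    have b3 : (x ^ 3 : ℝ) ≤ x ^ 5 := pow_le_pow_right₀ (by linarith) (by norm_num)
    have b4 : (x ^ 4 : ℝ) ≤ x ^ 5 := pow_le_pow_right₀ (by linarith) (by norm_num)
    have b1 : x ≤ x ^ 5 := by
      calc x = x ^ 1 := (pow_one x).symm
        _ ≤ x ^ 5 := pow_le_pow_right₀ (by linarith) (by norm_num)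
    linarith
  have t6 : N ≤ 12 * x ^ 6 + N / 16 := by
    calc N ≤ 2 * t * (m + B) := R3
      _ ≤ 2 * t * (6 * x ^ 5 + N / (32 * t)) := by gcongr
      _ = 12 * (t * x ^ 5) + N / 16 := by field_simp; ring
      _ ≤ 12 * (x * x ^ 5) + N / 16 := by gcongr
      _ = _ := by ring
  have b6 : x ^ 6 * 12 ^ 2 ≤ x ^ 8 := by
    calc x ^ 6 * 12 ^ 2 ≤ x ^ 6 * x ^ 2 := by gcongr
      _ = x ^ 8 := by ring
  have b7 : 0 < x ^ 6 := by positivity
  linarith

end Pool.Agent.TFX
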