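import Pool.Agent.TFX.Path
import Pool.Agent.TFB.ECross

/-! X6: the case of one cycle. -/

namespace Pool.Agent.TFX

open List Pool.Agent.TF82 Pool.Agent.TFC Pool.Agent.TFB Pool.Agent.TFN

universe u

set_option linter.unusedSectionVars false
set_option linter.unusedVariables false

variable {V : Type u} [DecidableEq V]

/-- as many independent covered vertices off both sets of attachments are impossible -/
theorem two_aux [Fintype V] {G : SimpleGraph V} [DecidableRel G.Adj] {k : ℕ} (hk : 3 ≤ k)
    (hC' : ∀ I : Finset V, G.IsIndepSet (I : Set V) → ∀ v ∈ I, I.card + k ≤ dU G Finset.univ v + 2)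
    {L : List (List V)} {y z : V} (hy : y ∈ unc L) (hz : z ∈ unc L)
    (hyz : ¬ Reach G (unc L) y z) (hcard : (comp G L y).card = k) (D : Finset V)
    (hD : ∀ d ∈ D, d ∈ L.flatten ∧ d ∉ att G L y ∧ d ∉ att G L z)
    (hDi : ∀ d ∈ D, ∀ d' ∈ D, ¬ G.Adj d d') (hDc : (att G L y).card ≤ D.card) : False := by
  have hyU := mem_unc.1 hy
  have hzU := mem_unc.1 hz
  have hne : y ≠ z := by
    rintro rfl
    exact hyz Relation.ReflTransGen.refl
  have hnyz : ¬ G.Adj y z := fun h => hyz (Relation.ReflTransGen.single ⟨hy, hz, h⟩)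
  have hyD : ∀ d ∈ D, ¬ G.Adj d y := by
    intro d hd h
    exact (hD d hd).2.1 (mem_att.2 ⟨(hD d hd).1, y, Relation.ReflTransGen.refl, h⟩)
  have hzD : ∀ d ∈ D, ¬ G.Adj d z := by
    intro d hd h
    exact (hD d hd).2.2 (mem_att.2 ⟨(hD d hd).1, z, Relation.ReflTransGen.refl, h⟩)
  have hzn : z ∉ D := fun h => hzU (hD z h).1
  have hyn : y ∉ insert z D := by
    rw [Finset.mem_insert, not_or]
    exact ⟨hne, fun h => hyU (hD y h).1⟩
  have hI : (insert y (insert z D)).card = D.card + 2 := by
    rw [Finset.card_insert_of_notMem hyn, Finset.card_insert_of_notMem hzn]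
  have hind : G.IsIndepSet ((insert y (insert z D) : Finset V) : Set V) := by
    intro a ha b hb hab hadj
    simp only [Finset.coe_insert, Set.mem_insert_iff, Finset.mem_coe] at ha hb
    rcases ha with rfl | rfl | ha <;> rcases hb with rfl | rfl | hb
    · exact hab rfl
    · exact hnyz hadj
    · exact hyD b hb hadj.symm
    · exact hnyz hadj.symm
    · exact hab rfl
    · exact hzD b hb hadj.symm
    · exact hyD a ha hadj
    · exact hzD a ha hadj
    · exact hDi a ha b hb hadj
  have h1 := hC' _ hind y (Finset.mem_insert_self _ _)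
  rw [hI] at h1
  have h2 := att_deg (G := G) hy (v := y) Relation.ReflTransGen.refl
  have hyc : y ∈ comp G L y := mem_comp.2 ⟨hy, Relation.ReflTransGen.refl⟩
  have h3 : dU G (unc L) y ≤ k - 1 := by
    rw [← dU_comp hyc, ← hcard, ← Finset.card_erase_of_mem hyc]
    unfold dU
    apply Finset.card_le_card
    intro w hw
    rw [Finset.mem_filter] at hw
    rw [Finset.mem_erase]
    exact ⟨fun h => G.loopless.irrefl y (by rw [h] at hw; exact hw.2), hw.1⟩
  have h4 : ((att G L y).filter (fun w => G.Adj y w)).card ≤ (att G L y).card :=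
    Finset.card_filter_le _ _
  omega

/-- Two components `y`, `z` without paths on `k + 1` vertices are impossible. With `A = att y`
and `dU univ y = A.card + (k - 1)`: if `prv s ∉ att z` for all `s ∈ A`, take the independent set
`{y, z} ∪ A.image prv`; otherwise there is exactly one such `s` (`ec_unique`), and
`{y, z, prv (prv s)} ∪ (A.erase s).image prv` is independent (`ec_a`, `ec_f`, `att_noins`). -/
theorem two_cliques [Fintype V] {G : SimpleGraph V} [DecidableRel G.Adj] {k : ℕ} (hk : 3 ≤ k)
    (hC' : ∀ I : Finset V, G.IsIndepSet (I : Set V) → ∀ v ∈ I, I.card + k ≤ dU G Finset.univ v + 2)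
    {j : ℕ} {L : List (List V)} (hM : IsMax G j L) {y z : V} (hy : y ∈ unc L) (hz : z ∈ unc L)
    (hyz : ¬ Reach G (unc L) y z)
    (hno : ∀ X : List V, X.Nodup → X.IsChain G.Adj → (∀ x ∈ X, x ∈ comp G L y) → X.length ≤ k)
    (hno' : ∀ X : List V, X.Nodup → X.IsChain G.Adj → (∀ x ∈ X, x ∈ comp G L z) → X.length ≤ k) :
    False := by
  have hC : ∀ I : Finset V, G.IsIndepSet (I : Set V) → ∀ v ∈ I,
      I.card + 1 ≤ dU G Finset.univ v := by
    intro I hI v hv
    have := hC' I hI v hv
    omega
  obtain ⟨hcard, -, hfull⟩ := comp_clique hk hC' hM hy hno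
  have hcov : ∀ w ∈ att G L y, w ∈ L.flatten := fun w hw => (mem_att.1 hw).1
  by_cases hs : ∃ s ∈ att G L y, prv L s ∈ att G L z
  · obtain ⟨s, hs, hsz⟩ := hs
    have huniq : ∀ r ∈ att G L y, r ≠ s → prv L r ∉ att G L z := by
      intro r hr hrs h
      exact hrs (ec_unique hM hy hz hyz hr hs h hsz)
    have hps : prv L s ∈ L.flatten := (mem_att.1 hsz).1
    have hpps : prv L (prv L s) ∈ L.flatten := prv_mem hM.fam hps
    have hnew : prv L (prv L s) ∉ ((att G L y).erase s).image (prv L) := by
      intro h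
      rw [Finset.mem_image] at h
      obtain ⟨r, hr, hr'⟩ := h
      rw [Finset.mem_erase] at hr
      have h1 := prv_inj hM.fam (hcov r hr.2) hps hr'
      exact att_noins hM hy hs (by rw [← h1]; exact hr.2)
    refine two_aux hk hC' hy hz hyz hcard
      (insert (prv L (prv L s)) (((att G L y).erase s).image (prv L))) ?_ ?_ ?_
    · intro d hd
      rw [Finset.mem_insert] at hd
      rcases hd with rfl | hd
      · exact ⟨hpps, ec_a hC hM hy hs (hfull s hs), att_noins hM hz hsz⟩
      · rw [Finset.mem_image] at hd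
        obtain ⟨r, hr, rfl⟩ := hd
        rw [Finset.mem_erase] at hr
        exact ⟨prv_mem hM.fam (hcov r hr.2), att_noins hM hy hr.2, huniq r hr.2 hr.1⟩
    · intro d hd d' hd' hadj
      rw [Finset.mem_insert] at hd hd'
      rcases hd with rfl | hd <;> rcases hd' with rfl | hd'
      · exact G.loopless.irrefl _ hadj
      · rw [Finset.mem_image] at hd'
        obtain ⟨r, hr, rfl⟩ := hd'
        rw [Finset.mem_erase] at hr
        exact ec_f hC hM hy hs hr.2 (Ne.symm hr.1) (hfull s hs) (hfull r hr.2) hadj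
      · rw [Finset.mem_image] at hd
        obtain ⟨r, hr, rfl⟩ := hd
        rw [Finset.mem_erase] at hr
        exact ec_f hC hM hy hs hr.2 (Ne.symm hr.1) (hfull s hs) (hfull r hr.2) hadj.symm
      · rw [Finset.mem_image] at hd hd'
        obtain ⟨r, hr, rfl⟩ := hd
        obtain ⟨r', hr', rfl⟩ := hd'
        rw [Finset.mem_erase] at hr hr'
        exact att_indep hM hy hr.2 hr'.2 hadj
    · rw [Finset.card_insert_of_notMem hnew, Finset.card_image_of_injOn, Finset.card_erase_of_mem hs]
      · have : 0 < (att G L y).card := Finset.card_pos.2 ⟨s, hs⟩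
        omega
      · intro a ha b hb hab
        have ha' := (Finset.mem_erase.1 (Finset.mem_coe.1 ha)).2
        have hb' := (Finset.mem_erase.1 (Finset.mem_coe.1 hb)).2
        exact prv_inj hM.fam (hcov a ha') (hcov b hb') hab
  · push Not at hs
    refine two_aux hk hC' hy hz hyz hcard ((att G L y).image (prv L)) ?_ ?_ ?_
    · intro d hd
      rw [Finset.mem_image] at hd
      obtain ⟨r, hr, rfl⟩ := hd
      exact ⟨prv_mem hM.fam (hcov r hr), att_noins hM hy hr, hs r hr⟩
    · intro d hd d' hd' hadj
      rw [Finset.mem_image] at hd hd'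
      obtain ⟨r, hr, rfl⟩ := hd
      obtain ⟨r', hr', rfl⟩ := hd'
      exact att_indep hM hy hr hr' hadj
    · rw [Finset.card_image_of_injOn]
      intro a ha b hb hab
      exact prv_inj hM.fam (hcov a (Finset.mem_coe.1 ha)) (hcov b (Finset.mem_coe.1 hb)) hab

/-- a complete set with at least three vertices is a cycle -/
theorem cycL_of_complete {G : SimpleGraph V} {U : Finset V} (hU : 3 ≤ U.card)
    (hc : ∀ a ∈ U, ∀ b ∈ U, a ≠ b → G.Adj a b) : CycL G U.toList := by
  have hn := Finset.nodup_toList U
  have hlen : U.toList.length = U.card := Finset.length_toList U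
  have hp : U.toList.Pairwise G.Adj := by
    refine List.Pairwise.imp_of_mem ?_ hn
    intro a b ha hb hab
    exact hc a (Finset.mem_toList.1 ha) b (Finset.mem_toList.1 hb) hab
  refine ⟨hn, by omega, hp.isChain, ?_⟩
  intro x hx y hy
  have hxm : x ∈ U := Finset.mem_toList.1 (List.mem_of_getLast? hx)
  have hym : y ∈ U := Finset.mem_toList.1 (List.mem_of_head? hy)
  refine hc x hxm y hym ?_
  rintro rfl
  generalize U.toList = l at *
  rcases l with _ | ⟨a, l⟩
  · simp at hlen; omega
  · rw [List.head?_cons, Option.mem_def, Option.some_inj] at hy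
    subst hy
    rcases List.eq_nil_or_concat l with rfl | ⟨l', b, rfl⟩
    · simp at hlen; omega
    · rw [List.concat_eq_append] at *
      have h1 : (a :: (l' ++ [b])).getLast? = some b := by
        rw [← List.cons_append, List.getLast?_append]; simp
      rw [h1, Option.mem_def, Option.some_inj] at hx
      subst hx
      simp at hn

/-- either some component has a path on exactly `k + 1` vertices, or one more cycle suffices -/
theorem path_or_cov [Fintype V] {G : SimpleGraph V} [DecidableRel G.Adj] {k : ℕ} (hk : 3 ≤ k)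
    (hC' : ∀ I : Finset V, G.IsIndepSet (I : Set V) → ∀ v ∈ I, I.card + k ≤ dU G Finset.univ v + 2)
    {j : ℕ} {L : List (List V)} (hM : IsMax G j L) (hne : (unc L).Nonempty) :
    (∃ y ∈ unc L, ∃ X x1 x2, Seg G X x1 x2 ∧ X.Nodup ∧ (∀ z ∈ X, z ∈ comp G L y) ∧
      X.length = k + 1) ∨ Cov G (L.length + 1) := by
  by_contra hcon
  obtain ⟨h1, h2⟩ := not_or.1 hcon
  have hno : ∀ y ∈ unc L, ∀ X : List V, X.Nodup → X.IsChain G.Adj →
      (∀ z ∈ X, z ∈ comp G L y) → X.length ≤ k := by
    intro y hy X hXn hXc hXm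
    by_contra hlt
    rw [not_le] at hlt
    apply h1
    have hlen : (X.take (k + 1)).length = k + 1 := by rw [List.length_take]; omega
    have hne : X.take (k + 1) ≠ [] := by
      intro h; rw [h] at hlen; simp at hlen
    exact ⟨y, hy, X.take (k + 1), (X.take (k + 1)).head hne, (X.take (k + 1)).getLast hne,
      ⟨hXc.take _, List.head?_eq_some_head hne, List.getLast?_eq_some_getLast hne⟩,
      hXn.sublist (List.take_sublist _ _), fun z hz => hXm z (List.mem_of_mem_take hz), hlen⟩
  obtain ⟨y, hy⟩ := hne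
  have hall : ∀ z ∈ unc L, Reach G (unc L) y z := by
    intro z hz
    by_contra hr
    exact two_cliques hk hC' hM hy hz hr (hno y hy) (hno z hz)
  obtain ⟨hcard, hcl, -⟩ := comp_clique hk hC' hM hy (hno y hy)
  have hcomp : comp G L y = unc L := by
    ext x; rw [mem_comp]; exact ⟨fun h => h.1, fun h => ⟨h, hall x h⟩⟩
  rw [hcomp] at hcard hcl
  apply h2
  refine ⟨(unc L).toList :: L, by simp, ?_, ?_, ?_⟩
  · intro c hc
    rcases List.mem_cons.1 hc with rfl | hc
    · exact cycL_of_complete (by omega) hcl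
    · exact hM.fam.cyc c hc
  · rw [List.flatten_cons, List.nodup_append']
    refine ⟨Finset.nodup_toList _, hM.fam.nod, ?_⟩
    intro x hx hx'
    exact mem_unc.1 (Finset.mem_toList.1 hx) hx'
  · intro x
    rw [List.flatten_cons, List.mem_append, Finset.mem_toList, mem_unc]
    tauto

end Pool.Agent.TFX
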