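import Pool.Agent.TFX.Main
import Pool.Agent.TFX.Choose
import Pool.Agent.TFX.Clique
import Pool.Agent.TFN.Final

/-! At most `k` cycles cover a graph of large order. -/

namespace Pool.Agent.TFX

open List Pool.Agent.TF82 Pool.Agent.TFC Pool.Agent.TFB Pool.Agent.TFN

universe u

set_option linter.unusedSectionVars false
set_option linter.unusedVariables false

variable {V : Type u} [DecidableEq V]

/-- the order from which on the theorem holds is `bigC k ^ 8` -/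
def bigC (k : ℕ) : ℕ := 2 ^ 54 * (k + 1) ^ 26

theorem order_ge (k : ℕ) :
    eC k (tC k) + (bC k (tC k) + k * (8 * eC k (tC k) ^ 2)) + tC k + k + 10 ≤ bigC k := by
  have h1 := eC_le k
  have h2 := bC_le k
  have h3 := tC_le k
  have hK : 1 ≤ k + 1 := by omega
  have p0 : 1 ≤ (k + 1) ^ 26 := Nat.one_le_pow _ _ hK
  have p1 : (k + 1) ^ 11 ≤ (k + 1) ^ 26 := Nat.pow_le_pow_right hK (by norm_num)
  have p2 : (k + 1) ^ 2 ≤ (k + 1) ^ 26 := Nat.pow_le_pow_right hK (by norm_num)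
  have p3 : (k + 1) ^ 23 ≤ (k + 1) ^ 26 := Nat.pow_le_pow_right hK (by norm_num)
  have p4 : k + 1 ≤ (k + 1) ^ 26 := Nat.le_self_pow (by norm_num) _
  have h4 : k * (8 * eC k (tC k) ^ 2) ≤ 2 ^ 43 * (k + 1) ^ 23 := by
    calc k * (8 * eC k (tC k) ^ 2) ≤ (k + 1) * (8 * (2 ^ 20 * (k + 1) ^ 11) ^ 2) := by
          gcongr
          omega
      _ = 2 ^ 43 * (k + 1) ^ 23 := by ring
  unfold bigC
  omega

theorem big_ge (k : ℕ) : 2 ^ 64 * (k + 1) ^ 33 ≤ bigC k ^ 8 := by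
  have h1 : 1 ≤ bigC k := by
    unfold bigC
    have : 1 ≤ (k + 1) ^ 26 := Nat.one_le_pow _ _ (by omega)
    omega
  calc 2 ^ 64 * (k + 1) ^ 33 ≤ 2 ^ 108 * (k + 1) ^ 52 :=
        Nat.mul_le_mul (by norm_num) (Nat.pow_le_pow_right (by omega) (by norm_num))
    _ = bigC k ^ 2 := by unfold bigC; ring
    _ ≤ bigC k ^ 8 := Nat.pow_le_pow_right h1 (by norm_num)

theorem e_ge {k t : ℕ} (h : k + 2 ≤ t) : 16 * t * (k + 2) * (k + 1) * (k + 1) ≤ eC k t := by
  have h1 : t ^ 2 ≤ t ^ 4 := Nat.pow_le_pow_right (by omega) (by norm_num)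
  have h2 : (k + 2) * (k + 1) ≤ t ^ 2 := by
    rw [pow_two]
    exact Nat.mul_le_mul h (by omega)
  have h3 : 16 * t * (k + 2) * (k + 1) * (k + 1) = 4 * t * (k + 1) * (4 * ((k + 2) * (k + 1))) := by
    ring
  have h4 : (16 * t ^ 2) ^ 2 = 256 * t ^ 4 := by ring
  rw [h3]
  unfold eC
  rw [h4]
  exact Nat.mul_le_mul_left _ (by omega)

theorem tC_ge2 {k : ℕ} (hk : 1 ≤ k) : k + 2 ≤ tC k := by
  unfold tC
  nlinarith

theorem cov_large [Fintype V] {k : ℕ} (hk : 3 ≤ k) (G : SimpleGraph V) [DecidableRel G.Adj]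
    (hC' : ∀ I : Finset V, G.IsIndepSet (I : Set V) → ∀ v ∈ I, I.card + k ≤ dU G Finset.univ v + 2)
    (hσ : ∀ I : Finset V, G.IsIndepSet (I : Set V) → I.card = k + 1 →
      Fintype.card V ≤ ∑ v ∈ I, dU G Finset.univ v)
    (hn : bigC k ^ 8 ≤ Fintype.card V) : Cov G k := by
  have hC : ∀ I : Finset V, G.IsIndepSet (I : Set V) → ∀ v ∈ I,
      I.card + 1 ≤ dU G Finset.univ v := by
    intro I hI v hv
    have := hC' I hI v hv
    omega
  rcases dense_or k G hC hσ with h | h | ⟨hk1, hd, I, hI, hIc⟩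
  · exact h
  · exfalso
    have h6 : k * (k + 1) ^ 3 ≤ (k + 1) * (k + 1) ^ 3 := Nat.mul_le_mul_right _ (by omega)
    have h7 : (k + 1) * (k + 1) ^ 3 = (k + 1) ^ 4 := by ring
    have h8 : (k + 1) ^ 4 ≤ (k + 1) ^ 33 := Nat.pow_le_pow_right (by omega) (by norm_num)
    have h9 := big_ge k
    omega
  obtain ⟨ht12, htk⟩ := tC_ge hk1
  have hord := order_le k
  obtain ⟨F0, hF0, hF0k, hF0b⟩ := dense_reduce hC (by omega : 1 ≤ tC k) htk hσ hd I hI hIc
    (hord.trans ((big_ge k).trans hn))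
  obtain ⟨F, hM, hFk, hN, hB⟩ := choose_r (Lo := 8 * eC k (tC k) ^ 2) hF0 hF0k hF0b
  have hbig := (Nat.pow_le_pow_left (order_ge k) 8).trans hn
  have he : 16 * tC k * (k + 2) * (k + 1) * (k + 1) ≤ eC k (tC k) := e_ge (tC_ge2 hk1)
  rcases Finset.eq_empty_or_nonempty (unc F) with hemp | hne
  · exact cov_of_unc hM.fam hFk hemp
  have main := @no_path V _ _ G _ hC (tC k) k (eC k (tC k))
    (bC k (tC k) + k * (8 * eC k (tC k) ^ 2)) (by omega) hk1 he hσ hd hbig F hM hFk hN hB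
  rcases Nat.lt_trichotomy F.length 1 with h1 | h1 | h1
  · exfalso
    have h2 : F = [] := List.length_eq_zero_iff.1 (by omega)
    have h3 : (unc F).card = Fintype.card V := by
      rw [h2]
      unfold unc
      simp
    have h4 : bC k (tC k) + k * (8 * eC k (tC k) ^ 2) <
        (eC k (tC k) + (bC k (tC k) + k * (8 * eC k (tC k) ^ 2)) + tC k + k + 10) ^ 8 := by
      refine lt_of_lt_of_le ?_ (Nat.le_self_pow (by norm_num) _)
      omega
    exact absurd (h4.trans_le (hbig.trans (h3 ▸ hB))) (lt_irrefl _)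
  · rcases path_or_cov hk hC' hM hne with ⟨y, hy, X, x1, x2, hX, hXn, hXc, hXk⟩ | h
    · exact (main hy hX hXn hXc (by omega)).elim
    · exact Cov.mono h (by omega)
  · obtain ⟨y, hy⟩ := hne
    obtain ⟨X, x1, x2, hX, hXn, hXc, hXk⟩ := path_exists hC' hM hy (m := k + 2 - F.length)
      (by omega) (by omega)
    exact (main hy hX hXn hXc (by omega)).elim

end Pool.Agent.TFX
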