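import Pool.Agent.TFB.Few
import Pool.Agent.TFN.Defs

/-! X4: many full attachments. -/

namespace Pool.Agent.TFX

open List Pool.Agent.TF82 Pool.Agent.TFC Pool.Agent.TFB Pool.Agent.TFN

universe u

set_option linter.unusedSectionVars false
set_option linter.unusedVariables false

variable {V : Type u} [DecidableEq V]

/-- `d(y) ≤ |att| + B` and every `x ∈ comp` misses at most `B` attachments (`att_main`) -/
theorem full_many [Fintype V] {G : SimpleGraph V} [DecidableRel G.Adj]
    (hC : ∀ I : Finset V, G.IsIndepSet (I : Set V) → ∀ v ∈ I, I.card + 1 ≤ dU G Finset.univ v)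
    {t B j : ℕ} (hd : ∀ v, Fintype.card V ≤ t * dU G Finset.univ v) {L : List (List V)}
    (hM : IsMax G j L) {y : V} (hy : y ∈ unc L) (hB : (unc L).card ≤ B) :
    ∃ S : Finset V, (∀ s ∈ S, s ∈ att G L y ∧ ∀ x ∈ comp G L y, G.Adj s x) ∧
      Fintype.card V ≤ t * (S.card + B + B ^ 2) := by
  classical
  obtain ⟨S, hS⟩ : ∃ S : Finset V, S = (att G L y).filter (fun s => ∀ x ∈ comp G L y, G.Adj s x) :=
    ⟨_, rfl⟩
  refine ⟨S, ?_, ?_⟩
  · intro s hs
    rw [hS, Finset.mem_filter] at hs
    exact hs
  have hunc : ∀ v, dU G (unc L) v ≤ B := fun v => (Finset.card_filter_le _ _).trans hB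
  have hcomp : (comp G L y).card ≤ B := by
    refine (Finset.card_le_card ?_).trans hB
    intro x hx
    exact (mem_comp.1 hx).1
  have hmiss : ∀ x ∈ comp G L y, ((att G L y).filter (fun w => ¬ G.Adj x w)).card ≤ B := by
    intro x hx
    have h1 := att_main hC hM hy {x} (by simp) (by
      intro z hz
      rw [Finset.mem_singleton] at hz
      subst hz
      exact (mem_comp.1 hx).2) (Finset.mem_singleton_self x)
    have h2 := hunc x
    omega
  have hsub : att G L y ⊆
      S ∪ (comp G L y).biUnion (fun x => (att G L y).filter (fun w => ¬ G.Adj x w)) := by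
    intro w hw
    rw [Finset.mem_union]
    by_cases h : ∀ x ∈ comp G L y, G.Adj w x
    · left
      rw [hS, Finset.mem_filter]
      exact ⟨hw, h⟩
    · right
      push Not at h
      obtain ⟨x, hx, hxw⟩ := h
      rw [Finset.mem_biUnion]
      refine ⟨x, hx, ?_⟩
      rw [Finset.mem_filter]
      exact ⟨hw, fun h => hxw h.symm⟩
  have hatt : (att G L y).card ≤ S.card + B ^ 2 := by
    have h1 := (Finset.card_le_card hsub).trans (Finset.card_union_le _ _)
    have h2 : ((comp G L y).biUnion (fun x => (att G L y).filter (fun w => ¬ G.Adj x w))).card ≤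
        (comp G L y).card * B := Finset.card_biUnion_le_card_mul _ _ _ hmiss
    have h3 : (comp G L y).card * B ≤ B * B := Nat.mul_le_mul_right _ hcomp
    have h4 : B ^ 2 = B * B := by ring
    omega
  have hdeg := att_deg (G := G) hy (Relation.ReflTransGen.refl : Reach G (unc L) y y)
  have h5 : ((att G L y).filter (fun w => G.Adj y w)).card ≤ (att G L y).card :=
    Finset.card_filter_le _ _
  have h6 := hunc y
  refine (hd y).trans (Nat.mul_le_mul_left _ ?_)
  omega

end Pool.Agent.TFX
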