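import Pool.Agent.TFX.Pick
import Pool.Agent.TFN.Large

/-! X8: the degree sum of the chosen independent set. -/

namespace Pool.Agent.TFX

open List Pool.Agent.TF82 Pool.Agent.TFC Pool.Agent.TFB Pool.Agent.TFN

universe u

set_option linter.unusedSectionVars false
set_option linter.unusedVariables false

variable {V : Type u} [DecidableEq V]

theorem sg_disj {G : SimpleGraph V} {F : List (List V)} (hF : Fam G F) {c c' : List V} (hc : c ∈ F)
    (hc' : c' ∈ F) {x : V} (hx : x ∈ c) (hx' : x ∈ c') : c = c' := by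
  by_contra hne
  have h2 := (List.nodup_flatten.1 hF.nod).2
  have : Std.Symm (List.Disjoint : List V → List V → Prop) := ⟨fun _ _ h => h.symm⟩
  exact h2.forall hc hc' hne hx hx'

theorem sg_nodup {G : SimpleGraph V} {F : List (List V)} (hF : Fam G F) : F.Nodup := by
  have h2 := (List.nodup_flatten.1 hF.nod).2
  refine List.Pairwise.imp_of_mem ?_ h2
  intro a b ha hb hd hab
  subst hab
  have h3 := (hF.cyc a ha).2.1
  obtain ⟨x, hx⟩ : ∃ x, x ∈ a := List.exists_mem_of_length_pos (by omega)
  exact hd hx hx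

theorem sg_len [Fintype V] {G : SimpleGraph V} {F : List (List V)} (hF : Fam G F) :
    ∑ c ∈ F.toFinset, c.length ≤ Fintype.card V := by
  rw [List.sum_toFinset _ (sg_nodup hF), ← List.length_flatten]
  exact hF.nod.length_le_card

/-- the degree of a vertex with few neighbours on the cycles other than `c` -/
theorem sg_deg [Fintype V] {G : SimpleGraph V} [DecidableRel G.Adj] {F : List (List V)} {e B : ℕ}
    (hF : Fam G F) (hB : (unc F).card ≤ B) {c : List V} (hc : c ∈ F) {v : V}
    (hv : ∀ c' ∈ F, c' ≠ c → e * nb G c' v ≤ c'.length) :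
    e * dU G Finset.univ v ≤ e * nb G c v + (Fintype.card V + e * B) := by
  have h1 := deg_split hF v
  rw [← List.sum_toFinset _ (sg_nodup hF), ← Finset.add_sum_erase F.toFinset _ (List.mem_toFinset.2 hc)] at h1
  have h2 : e * ∑ c' ∈ F.toFinset.erase c, nb G c' v ≤ Fintype.card V := by
    rw [Finset.mul_sum]
    refine le_trans ?_ (sg_len hF)
    refine (Finset.sum_le_sum (fun c' hc' => ?_)).trans (Finset.sum_le_sum_of_subset (Finset.erase_subset c _))
    rw [Finset.mem_erase, List.mem_toFinset] at hc'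
    exact hv c' hc'.2 hc'.1
  have h3 := Nat.mul_le_mul_left e (h1.trans (Nat.add_le_add_left hB _))
  rw [Nat.mul_add, Nat.mul_add] at h3
  omega

/-- `I = T ∪ {z c' : c' ∈ F, c' ≠ c}` is independent with `k + 1` elements (`choose_z`). Degrees by
`deg_split`: `e d(p) ≤ e nb c p + n + e B` and `e d(z c') ≤ e |c'| + n + e B`; and
`|c| + ∑ |c'| ≤ n`. -/
theorem sigma_bound [Fintype V] {G : SimpleGraph V} [DecidableRel G.Adj] {F : List (List V)}
    {e k B : ℕ} (hF : Fam G F) (hN : NoMerge G F (8 * e ^ 2)) (hk : F.length ≤ k)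
    (he : 3 * k + 2 ≤ e) (hB : (unc F).card ≤ B)
    (hσ : ∀ I : Finset V, G.IsIndepSet (I : Set V) → I.card = k + 1 →
      Fintype.card V ≤ ∑ v ∈ I, dU G Finset.univ v)
    {c : List V} (hc : c ∈ F) (T : Finset V) (hTc : ∀ p ∈ T, p ∈ c)
    (hTi : G.IsIndepSet (T : Set V)) (hTk : T.card + F.length = k + 2)
    (hT : ∀ p ∈ T, ∀ c' ∈ F, c' ≠ c → e * nb G c' p < c'.length) :
    e * c.length ≤ e * ∑ p ∈ T, nb G c p + (k + 1) * (Fintype.card V + e * B) := by
  have hFn := sg_nodup hF
  have hScard : F.toFinset.card = F.length := List.toFinset_card_of_nodup hFn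
  have hFpos : 0 < F.length := List.length_pos_of_mem hc
  have hcpos : 0 < c.length := by
    have := (hF.cyc c hc).2.1
    omega
  obtain ⟨x0, _⟩ : ∃ x, x ∈ c := List.exists_mem_of_length_pos hcpos
  haveI : Nonempty V := ⟨x0⟩
  obtain ⟨z, hz1, hz2⟩ := choose_z hF hN hk he hc T (by omega) hT
  obtain ⟨S, hS⟩ : ∃ S : Finset (List V), S = F.toFinset.erase c := ⟨_, rfl⟩
  have hmS : ∀ c', c' ∈ S ↔ c' ∈ F ∧ c' ≠ c := by
    intro c'
    rw [hS, Finset.mem_erase, List.mem_toFinset]
    tauto
  have hSc : S.card + 1 = F.length := by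
    rw [hS, ← hScard]
    exact Finset.card_erase_add_one (List.mem_toFinset.2 hc)
  have hinj : Set.InjOn z (S : Set (List V)) := by
    intro a ha b hb hab
    rw [Finset.mem_coe, hmS] at ha hb
    have h1 := (hz1 a ha.1 ha.2).1
    rw [hab] at h1
    exact sg_disj hF ha.1 hb.1 h1 (hz1 b hb.1 hb.2).1
  have hdisj : Disjoint T (S.image z) := by
    rw [Finset.disjoint_left]
    intro v hv hv'
    obtain ⟨c', hc', rfl⟩ := Finset.mem_image.1 hv'
    rw [hmS] at hc'
    exact hc'.2 (sg_disj hF hc'.1 hc (hz1 c' hc'.1 hc'.2).1 (hTc _ hv))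
  have hsum := hσ (T ∪ S.image z) (by
    intro a ha b hb hab
    rw [Finset.mem_coe, Finset.mem_union] at ha hb
    rcases ha with ha | ha
    · rcases hb with hb | hb
      · exact hTi (Finset.mem_coe.2 ha) (Finset.mem_coe.2 hb) hab
      · obtain ⟨c', hc', rfl⟩ := Finset.mem_image.1 hb
        rw [hmS] at hc'
        exact (hz1 c' hc'.1 hc'.2).2.1 a ha
    · obtain ⟨c', hc', rfl⟩ := Finset.mem_image.1 ha
      rw [hmS] at hc'
      rcases hb with hb | hb
      · intro hadj
        exact (hz1 c' hc'.1 hc'.2).2.1 b hb hadj.symm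
      · obtain ⟨c'', hc'', rfl⟩ := Finset.mem_image.1 hb
        rw [hmS] at hc''
        exact hz2 c' hc'.1 hc'.2 c'' hc''.1 hc''.2 (fun h => hab (by rw [h]))) (by
    rw [Finset.card_union_of_disjoint hdisj, Finset.card_image_of_injOn hinj]
    omega)
  rw [Finset.sum_union hdisj, Finset.sum_image hinj] at hsum
  have h1 : e * ∑ v ∈ T, dU G Finset.univ v ≤
      e * ∑ p ∈ T, nb G c p + T.card * (Fintype.card V + e * B) := by
    rw [Finset.mul_sum, Finset.mul_sum]
    refine (Finset.sum_le_sum (fun v hv => sg_deg hF hB hc (fun c' hc' hne => (hT v hv c' hc' hne).le))).trans ?_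
    rw [Finset.sum_add_distrib, Finset.sum_const, smul_eq_mul]
  have h2 : e * ∑ c' ∈ S, dU G Finset.univ (z c') ≤
      e * ∑ c' ∈ S, c'.length + S.card * (Fintype.card V + e * B) := by
    rw [Finset.mul_sum, Finset.mul_sum]
    refine (Finset.sum_le_sum (g := fun c' => e * c'.length + (Fintype.card V + e * B)) (fun c' hc' => ?_)).trans ?_
    · rw [hmS] at hc'
      refine (sg_deg hF hB hc'.1 (fun c'' hc'' hne => ((hz1 c' hc'.1 hc'.2).2.2 c'' hc'' hne).le)).trans ?_
      refine Nat.add_le_add_right (Nat.mul_le_mul_left e ?_) _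
      exact (Finset.card_filter_le _ _).trans (List.toFinset_card_le c')
    · rw [Finset.sum_add_distrib, Finset.sum_const, smul_eq_mul]
  have h3 : c.length + ∑ c' ∈ S, c'.length ≤ Fintype.card V := by
    rw [hS, Finset.add_sum_erase F.toFinset (fun c' => c'.length) (List.mem_toFinset.2 hc)]
    exact sg_len hF
  have h4 := Nat.mul_le_mul_left e h3
  have h5 := Nat.mul_le_mul_left e hsum
  rw [Nat.mul_add] at h4 h5
  have h6 : T.card * (Fintype.card V + e * B) + S.card * (Fintype.card V + e * B) =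
      (k + 1) * (Fintype.card V + e * B) := by
    rw [← Nat.add_mul]
    congr 1
    omega
  omega

end Pool.Agent.TFX
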