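import Pool.Agent.TFX.WinB
import Pool.Agent.TFX.Full
import Pool.Agent.TFX.Sigma
import Pool.Agent.TFX.Arith

/-! X11: a path with `k + 2 - r` vertices in an uncovered component is impossible. -/

namespace Pool.Agent.TFX

open List Pool.Agent.TF82 Pool.Agent.TFC Pool.Agent.TFB Pool.Agent.TFN

universe u

set_option linter.unusedSectionVars false
set_option linter.unusedVariables false

/-- there are at least `q` predecessors -/
theorem arith_le {n e t k B r s m q sf : ℕ} (ht : 1 ≤ t) (hrk : r ≤ k)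
    (hq : q ≤ k + 2) (he : 16 * t * (k + 2) * (k + 1) * (k + 1) ≤ e)
    (hn : (e + B + t + k + 10) ^ 8 ≤ n)
    (h1 : n ≤ t * (sf + B + B ^ 2))
    (h2 : sf ≤ r * (s + r * (2 * e * (m / (4 * e ^ 2) + 1)))) (h4 : m ≤ n) : q ≤ s := by
  by_contra hcon
  push Not at hcon
  obtain ⟨a, ha⟩ : ∃ a, a = m / (4 * e ^ 2) := ⟨_, rfl⟩
  rw [← ha] at h2
  have ha1 : 4 * e ^ 2 * a ≤ n := by
    rw [ha]
    exact (Nat.mul_div_le _ _).trans h4
  obtain ⟨M, hM⟩ : ∃ M, M = e + B + t + k + 10 := ⟨_, rfl⟩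
  rw [← hM] at hn
  have hM10 : 10 ≤ M := by omega
  have hs : s ≤ M := by omega
  have hr : r ≤ M := by omega
  have htM : t ≤ M := by omega
  have heM : e ≤ M := by omega
  have hBM : B ≤ M := by omega
  -- the main term
  have e1 : 16 * t * (r * r) ≤ e := by
    refine le_trans ?_ he
    have h5 : r * r ≤ (k + 1) * (k + 1) := Nat.mul_le_mul (by omega) (by omega)
    calc 16 * t * (r * r) ≤ 16 * t * ((k + 1) * (k + 1)) := Nat.mul_le_mul_left _ h5
      _ = 16 * t * 1 * (k + 1) * (k + 1) := by ring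
      _ ≤ 16 * t * (k + 2) * (k + 1) * (k + 1) :=
        Nat.mul_le_mul_right _ (Nat.mul_le_mul_right _ (Nat.mul_le_mul_left _ (by omega)))
  have e2 : 16 * t * (r * r) * (4 * e * a) ≤ n := by
    calc 16 * t * (r * r) * (4 * e * a) ≤ e * (4 * e * a) := Nat.mul_le_mul_right _ e1
      _ = 4 * e ^ 2 * a := by ring
      _ ≤ n := ha1
  -- the small terms
  have c1 : t * (r * s) ≤ M * (M * M) := Nat.mul_le_mul htM (Nat.mul_le_mul hr hs)
  have c2 : t * (r * r) * e ≤ M * (M * M) * M :=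
    Nat.mul_le_mul (Nat.mul_le_mul htM (Nat.mul_le_mul hr hr)) heM
  have c3 : t * B ≤ M * M := Nat.mul_le_mul htM hBM
  have c4 : t * (B * B) ≤ M * (M * M) := Nat.mul_le_mul htM (Nat.mul_le_mul hBM hBM)
  have h6 : 32 * n ≤ 32 * (t * (r * (s + r * (2 * e * (a + 1))) + B + B ^ 2)) := by
    refine Nat.mul_le_mul_left _ (h1.trans (Nat.mul_le_mul_left _ ?_))
    omega
  have h7 : 32 * (t * (r * (s + r * (2 * e * (a + 1))) + B + B ^ 2)) =
      32 * (t * (r * s)) + 16 * t * (r * r) * (4 * e * a) + 64 * (t * (r * r) * e) +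
        32 * (t * B) + 32 * (t * (B * B)) := by ring
  rw [h7] at h6
  have d1 : M * M ≤ M * (M * M) := Nat.le_mul_of_pos_left _ (by omega)
  have d2 : M * (M * M) ≤ M * (M * M) * M := Nat.le_mul_of_pos_right _ (by omega)
  have d3 : 10000 * (M * (M * M) * M) ≤ n := by
    refine le_trans ?_ hn
    have h8 : M ^ 8 = M ^ 4 * M ^ 4 := by ring
    have h9 : M * (M * M) * M = M ^ 4 := by ring
    rw [h8, h9]
    refine Nat.mul_le_mul_right _ ?_
    calc 10000 = 10 ^ 4 := by norm_num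
      _ ≤ M ^ 4 := Nat.pow_le_pow_left hM10 4
  have d4 : 1 ≤ M * (M * M) * M := Nat.one_le_iff_ne_zero.2 (by positivity)
  omega

variable {V : Type u} [DecidableEq V]

/-- `full_many`, `pick`, `small_subset` (on `P = S.image (prv F)`, `m = X.length`), `nb_sum`,
`sigma_bound` (independence of `P` by `att_indep`), `nm_large` for `h3`, then `arith` -/
theorem no_path [Fintype V] {G : SimpleGraph V} [DecidableRel G.Adj]
    (hC : ∀ I : Finset V, G.IsIndepSet (I : Set V) → ∀ v ∈ I, I.card + 1 ≤ dU G Finset.univ v)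
    {t k e B : ℕ} (ht : 1 ≤ t) (hk : 1 ≤ k) (he : 16 * t * (k + 2) * (k + 1) * (k + 1) ≤ e)
    (hσ : ∀ I : Finset V, G.IsIndepSet (I : Set V) → I.card = k + 1 →
      Fintype.card V ≤ ∑ v ∈ I, dU G Finset.univ v)
    (hd : ∀ v, Fintype.card V ≤ t * dU G Finset.univ v)
    (hn : (e + B + t + k + 10) ^ 8 ≤ Fintype.card V)
    {F : List (List V)} (hM : IsMax G F.length F) (hFk : F.length ≤ k)
    (hN : NoMerge G F (8 * e ^ 2)) (hB : (unc F).card ≤ B) {y : V} (hy : y ∈ unc F)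
    {X : List V} {x1 x2 : V} (hX : Seg G X x1 x2) (hXn : X.Nodup)
    (hXc : ∀ z ∈ X, z ∈ comp G F y) (hXk : X.length + F.length = k + 2) : False := by
  classical
  have hF := hM.fam
  -- size of `n`
  have hnB : e + B + t + k + 10 ≤ Fintype.card V := by
    refine le_trans ?_ hn
    exact Nat.le_self_pow (by norm_num) _
  -- the family is not empty
  have hne : F ≠ [] := by
    rintro rfl
    have h1 : unc ([] : List (List V)) = Finset.univ := by
      ext x
      simp [mem_unc]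
    rw [h1, Finset.card_univ] at hB
    omega
  have hr1 : 1 ≤ F.length := List.length_pos_iff.2 hne
  -- `e` is large
  have hebig : 96 * t * (k + 1) ≤ e := by
    refine le_trans ?_ he
    have h1 : 6 ≤ (k + 2) * (k + 1) := Nat.mul_le_mul (show 3 ≤ k + 2 by omega) (show 2 ≤ k + 1 by omega)
    calc 96 * t * (k + 1) = 16 * t * 6 * (k + 1) := by ring
      _ ≤ 16 * t * ((k + 2) * (k + 1)) * (k + 1) :=
        Nat.mul_le_mul_right _ (Nat.mul_le_mul_left _ h1)
      _ = 16 * t * (k + 2) * (k + 1) * (k + 1) := by ring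
  have he3 : 3 * k + 2 ≤ e := by
    refine le_trans ?_ hebig
    calc 3 * k + 2 ≤ 96 * (k + 1) := by omega
      _ ≤ 96 * t * (k + 1) := Nat.mul_le_mul_right _ (by omega)
  have he1 : 1 ≤ e := by omega
  have heL : 4 * t + (4 * t) ^ 2 ≤ 8 * e ^ 2 := by
    have h1 : 96 * t ≤ e := by
      refine le_trans ?_ hebig
      exact Nat.le_mul_of_pos_right _ (by omega)
    have h2 : (96 * t) ^ 2 ≤ e ^ 2 := Nat.pow_le_pow_left h1 2
    have h4 : t ≤ t ^ 2 := Nat.le_self_pow (by norm_num) _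
    have h5 : (96 * t) ^ 2 = 9216 * t ^ 2 := by ring
    have h6 : (4 * t) ^ 2 = 16 * t ^ 2 := by ring
    omega
  -- full attachments
  obtain ⟨Sf, hSf, hSfn⟩ := full_many hC hd hM hy hB
  obtain ⟨c, hc, S, hSSf, hSc, hSl, hScard⟩ := pick he1 hF hN hne Sf
    (fun s hs => (mem_att.1 (hSf s hs).1).1)
  have hcl : c.length ≤ Fintype.card V := (hF.cyc c hc).1.length_le_card
  have hfl : ∀ s ∈ S, s ∈ F.flatten := fun s hs => List.mem_flatten.2 ⟨c, hc, hSc s hs⟩
  obtain ⟨P, hP⟩ : ∃ P : Finset V, P = S.image (prv F) := ⟨_, rfl⟩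
  have hPcard : P.card = S.card := by
    rw [hP]
    refine Finset.card_image_of_injOn fun a ha b hb hab => ?_
    exact prv_inj hF (hfl a ha) (hfl b hb) hab
  -- the path
  have hXd : ∀ z ∈ X, z ∉ F.flatten := fun z hz => mem_unc.1 (mem_comp.1 (hXc z hz)).1
  have hx1 : x1 ∈ comp G F y := hXc x1 (List.mem_of_head? hX.hd)
  have hx2 : x2 ∈ comp G F y := hXc x2 (List.mem_of_getLast? hX.lt)
  have hfull : ∀ s ∈ S, G.Adj s x1 ∧ G.Adj s x2 := fun s hs =>
    ⟨(hSf s (hSSf hs)).2 x1 hx1, (hSf s (hSSf hs)).2 x2 hx2⟩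
  -- the subset
  have hqs : X.length ≤ P.card := by
    rw [hPcard]
    exact arith_le ht hFk (by omega) he hn hSfn hScard hcl
  obtain ⟨T, hTP, hTc, hTs⟩ := small_subset (fun p => nb G c p) X.length P hqs
  have h5 := nb_sum hM hc S hSc hX hXn hXd hfull
  rw [← hP] at h5
  have hTmem : ∀ p ∈ T, ∃ s ∈ S, prv F s = p := fun p hp => by
    have h1 := hTP hp
    rw [hP] at h1
    exact Finset.mem_image.1 h1
  have h7 := sigma_bound hF hN hFk he3 hB hσ hc T
    (fun p hp => by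
      obtain ⟨s, hs, rfl⟩ := hTmem p hp
      rw [prv_eq hF hc (hSc s hs)]
      exact List.prev_mem _ _ _)
    (fun a ha b hb hab hadj => by
      obtain ⟨s, hs, rfl⟩ := hTmem a ha
      obtain ⟨s', hs', rfl⟩ := hTmem b hb
      exact att_indep hM hy (hSf s (hSSf hs)).1 (hSf s' (hSSf hs')).1 hadj)
    (by omega)
    (fun p hp => by
      obtain ⟨s, hs, rfl⟩ := hTmem p hp
      exact hSl s hs)
  have h3 := nm_large hF hN ht hd hB heL hc
  rw [hPcard] at hTs
  exact arith ht hk hr1 hFk (by omega) he hn hSfn hScard h3 hcl h5 hTs h7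

end Pool.Agent.TFX
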