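import Pool.Agent.TFN.Defs

/-! X1: two edges from a window to two predecessors of attachments. -/

namespace Pool.Agent.TFX

open List Pool.Agent.TF82 Pool.Agent.TFC Pool.Agent.TFB Pool.Agent.TFN

universe u

set_option linter.unusedSectionVars false
set_option linter.unusedVariables false

variable {V : Type u} [DecidableEq V]

/-- New cycle: `(y :: W3 ++ L1 ++ [p]) ++ (L3 ++ W1 ++ [x]).reverse ++ X.reverse ++ (L2 ++ [q])`;
it loses `W2` and gains `X`. Here `sp`, `sq` are the vertices after `p`, `q` on the cycle. -/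
theorem pair_window {G : SimpleGraph V} {j : ℕ} {L : List (List V)}
    (hM : IsMax G j L) {c : List V} (hc : c ∈ L) {W1 W2 W3 L1 L2 L3 : List V}
    {x y p q sp sq : V}
    (hr : c ~r (W1 ++ x :: (W2 ++ y :: (W3 ++ (L1 ++ p :: (L2 ++ q :: L3))))))
    (hsp : sp ∈ c) (hsq : sq ∈ c) (hp : prv L sp = p) (hq : prv L sq = q)
    (hpx : G.Adj p x) (hqy : G.Adj q y) {X : List V} {x1 x2 : V} (hX : Seg G X x1 x2)
    (hXn : X.Nodup) (hXd : ∀ z ∈ X, z ∉ L.flatten) (h1 : G.Adj sp x1) (h2 : G.Adj sq x2) :
    X.length ≤ W2.length := by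
  have hcyc : CycL G c := hM.fam.cyc c hc
  have hcn : c.Nodup := hcyc.1
  obtain ⟨A, hA⟩ : ∃ A : List V, A = y :: (W3 ++ (L1 ++ [p])) := ⟨_, rfl⟩
  obtain ⟨B, hB⟩ : ∃ B : List V, B = L3 ++ (W1 ++ [x]) := ⟨_, rfl⟩
  obtain ⟨C, hC⟩ : ∃ C : List V, C = L2 ++ [q] := ⟨_, rfl⟩
  have hr2 : c ~r (B ++ (W2 ++ (A ++ C))) := by
    refine hr.trans ?_
    have e1 : (W1 ++ x :: (W2 ++ y :: (W3 ++ (L1 ++ p :: (L2 ++ q :: L3))))) =
      (W1 ++ ([x] ++ (W2 ++ (A ++ C)))) ++ L3 := by
      simp [hA, hC]
    have e2 : B ++ (W2 ++ (A ++ C)) = L3 ++ (W1 ++ ([x] ++ (W2 ++ (A ++ C)))) := by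
      simp [hB]
    rw [e1, e2]
    exact List.isRotated_append
  have hcyc2 := hcyc.of_isRotated hr2
  have hch := hcyc2.2.2.1
  have hchB : B.IsChain G.Adj := (List.isChain_append.1 hch).1
  have hch2 := (List.isChain_append.1 (List.isChain_append.1 hch).2.1).2.1
  have hchA : A.IsChain G.Adj := (List.isChain_append.1 hch2).1
  have hchC : C.IsChain G.Adj := (List.isChain_append.1 hch2).2.1
  have hCne : C ≠ [] := by simp [hC]
  have hBne : B ≠ [] := by simp [hB]
  have hAne : A ≠ [] := by simp [hA]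
  have hAl : A.getLast? = some p := by
    rw [hA, List.getLast?_cons]
    simp
  have hBl : B.getLast? = some x := by
    rw [hB]
    simp
  have hCl : C.getLast? = some q := by
    rw [hC]
    simp
  -- the heads
  have hCh : C.head? = some sp := by
    obtain ⟨s1, C', hC'⟩ := List.exists_cons_of_ne_nil hCne
    have hr3 : c ~r (s1 :: (C' ++ (B ++ (W2 ++ A)))) := by
      refine hr2.trans ?_
      have e1 : B ++ (W2 ++ (A ++ C)) = (B ++ (W2 ++ A)) ++ C := by simp
      have e2 : s1 :: (C' ++ (B ++ (W2 ++ A))) = C ++ (B ++ (W2 ++ A)) := by simp [hC']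
      rw [e1, e2]
      exact List.isRotated_append
    have hs1 : s1 ∈ c := hr3.perm.mem_iff.2 (by simp)
    have h3 := prev_of_rot hcn hr3 hs1
    have h4 : (s1 :: (C' ++ (B ++ (W2 ++ A)))).getLast (by simp) = p := by
      have h5 : (s1 :: (C' ++ (B ++ (W2 ++ A)))).getLast? = some p := by
        rw [← List.cons_append, List.getLast?_append, List.getLast?_append,
          List.getLast?_append, hAl]
        simp
      rw [List.getLast?_eq_getLast_of_ne_nil (by simp)] at h5
      exact Option.some.inj h5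
    rw [h4] at h3
    rw [prv_eq hM.fam hc hsp] at hp
    have h6 := prev_inj hcn hs1 hsp (h3.trans hp.symm)
    rw [hC', h6]
    rfl
  have hBh : B.head? = some sq := by
    obtain ⟨s2, B', hB'⟩ := List.exists_cons_of_ne_nil hBne
    have hr3 : c ~r (s2 :: (B' ++ (W2 ++ (A ++ C)))) := by
      have e2 : s2 :: (B' ++ (W2 ++ (A ++ C))) = B ++ (W2 ++ (A ++ C)) := by simp [hB']
      rw [e2]
      exact hr2
    have hs2 : s2 ∈ c := hr3.perm.mem_iff.2 (by simp)
    have h3 := prev_of_rot hcn hr3 hs2
    have h4 : (s2 :: (B' ++ (W2 ++ (A ++ C)))).getLast (by simp) = q := by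
      have h5 : (s2 :: (B' ++ (W2 ++ (A ++ C)))).getLast? = some q := by
        rw [← List.cons_append, List.getLast?_append, List.getLast?_append,
          List.getLast?_append, hCl]
        simp
      rw [List.getLast?_eq_getLast_of_ne_nil (by simp)] at h5
      exact Option.some.inj h5
    rw [h4] at h3
    rw [prv_eq hM.fam hc hsq] at hq
    have h6 := prev_inj hcn hs2 hsq (h3.trans hq.symm)
    rw [hB', h6]
    rfl
  have segA : Seg G A y p := ⟨hchA, by rw [hA]; rfl, hAl⟩
  have segB : Seg G B sq x := ⟨hchB, hBh, hBl⟩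
  have segC : Seg G C sp q := ⟨hchC, hCh, hCl⟩
  have segN : Seg G (A ++ ([] ++ (B.reverse ++ ([] ++ (X.reverse ++ ([] ++ C)))))) y q :=
    link_seg segA (by simpa using hpx)
      (link_seg segB.rev (by simpa using h2)
        (link_seg hX.rev (by simpa using h1.symm) segC))
  have hnodc : (B ++ (W2 ++ (A ++ C))).Nodup := hcyc2.1
  have hperm : L.flatten.Perm ((A ++ (B ++ C)) ++ (W2 ++ (L.erase c).flatten)) := by
    have h3 : L.flatten.Perm (c :: L.erase c).flatten := (List.perm_cons_erase hc).flatten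
    refine h3.trans ?_
    rw [List.flatten_cons]
    refine (hr2.perm.append_right _).trans ?_
    rw [← Multiset.coe_eq_coe]
    simp only [← Multiset.coe_add]
    abel
  have hNp : (A ++ ([] ++ (B.reverse ++ ([] ++ (X.reverse ++ ([] ++ C)))))).Perm
      ((A ++ (B ++ C)) ++ X) := by
    rw [← Multiset.coe_eq_coe]
    simp only [← Multiset.coe_add, Multiset.coe_reverse, List.nil_append]
    abel
  have hflat := hperm.nodup_iff.1 hM.fam.nod
  have hnN : ((A ++ (B ++ C)) ++ X).Nodup := by
    rw [List.nodup_append]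
    refine ⟨(List.nodup_append.1 hflat).1, hXn, ?_⟩
    rintro z hz z' hz' rfl
    exact hXd z hz' (hperm.mem_iff.2 (List.mem_append_left _ hz))
  have hNn := hNp.nodup_iff.2 hnN
  have hcycN : CycL G ((A ++ ([] ++ (B.reverse ++ ([] ++ (X.reverse ++ ([] ++ C)))))) ++ []) :=
    close_seg segN (by simpa using hqy) (by simpa using hNn) (by
      have := segA.pos
      have := segB.pos
      have := segC.pos
      have hX0 := hX.pos
      simp only [List.length_append, List.length_reverse, List.length_nil]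
      omega)
  rw [List.append_nil] at hcycN
  exact better hM hcycN hNp hperm (fun c' h => hM.fam.cyc c' (List.mem_of_mem_erase h))
    (by rw [List.length_erase_of_mem hc]; have := List.length_pos_of_mem hc; omega) hXd

end Pool.Agent.TFX
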