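import Pool.Agent.TFB.ECross
import Pool.Agent.TFB.CompB
import Pool.Agent.TFN.Defs

/-! X5: paths in the components of the uncovered part; the structure of a component without a
path on `k + 1` vertices. Hypothesis `hC'`: `|I| ≤ δ(I) - (k - 2)`. -/

namespace Pool.Agent.TFX

open List Pool.Agent.TF82 Pool.Agent.TFC Pool.Agent.TFB Pool.Agent.TFN

universe u

set_option linter.unusedSectionVars false
set_option linter.unusedVariables false

variable {V : Type u} [DecidableEq V]

theorem px_indep [Fintype V] {G : SimpleGraph V} {j : ℕ} {L : List (List V)}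
    (hM : IsMax G j L) {y : V} (hy : y ∈ unc L) (J : Finset V)
    (hJ : G.IsIndepSet (J : Set V)) (hJr : ∀ x ∈ J, Reach G (unc L) y x) :
    G.IsIndepSet ((J ∪ (att G L y).image (prv L) : Finset V) : Set V) ∧
      (J ∪ (att G L y).image (prv L)).card = J.card + (att G L y).card := by
  have hcov : ∀ w ∈ att G L y, w ∈ L.flatten := fun w hw => (mem_att.1 hw).1
  have hcr : ∀ w ∈ att G L y, ∀ x ∈ J, ¬ G.Adj (prv L w) x := by
    intro w hw x hx hadj
    exact att_noins hM hy hw (mem_att.2 ⟨prv_mem hM.fam (hcov w hw), x, hJr x hx, hadj⟩)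
  have hdis : Disjoint J ((att G L y).image (prv L)) := by
    rw [Finset.disjoint_left]
    intro x hx hx'
    obtain ⟨w, hw, rfl⟩ := Finset.mem_image.1 hx'
    exact mem_unc.1 (reach_unc hy (hJr _ hx)) (prv_mem hM.fam (hcov w hw))
  constructor
  · intro a ha b hb hab
    rw [Finset.mem_coe, Finset.mem_union] at ha hb
    rcases ha with ha | ha
    · rcases hb with hb | hb
      · exact hJ ha hb hab
      · obtain ⟨w, hw, rfl⟩ := Finset.mem_image.1 hb
        exact fun h => hcr w hw a ha h.symm
    · obtain ⟨w, hw, rfl⟩ := Finset.mem_image.1 ha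
      rcases hb with hb | hb
      · exact hcr w hw b hb
      · obtain ⟨w', hw', rfl⟩ := Finset.mem_image.1 hb
        exact att_indep hM hy hw hw'
  · rw [Finset.card_union_of_disjoint hdis, Finset.card_image_of_injOn]
    intro a ha b hb hab
    exact prv_inj hM.fam (hcov a ha) (hcov b hb) hab

/-- as `att_main`, with the stronger hypothesis (use `J ∪ (att y)⁻`, as in `att_count`) -/
theorem att_surplus [Fintype V] {G : SimpleGraph V} [DecidableRel G.Adj] {k : ℕ}
    (hC' : ∀ I : Finset V, G.IsIndepSet (I : Set V) → ∀ v ∈ I, I.card + k ≤ dU G Finset.univ v + 2)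
    {j : ℕ} {L : List (List V)} (hM : IsMax G j L) {y : V} (hy : y ∈ unc L) (J : Finset V)
    (hJ : G.IsIndepSet (J : Set V)) (hJr : ∀ x ∈ J, Reach G (unc L) y x) {v : V} (hv : v ∈ J) :
    J.card + k + ((att G L y).filter (fun w => ¬ G.Adj v w)).card ≤ dU G (unc L) v + 2 := by
  obtain ⟨h0, h0'⟩ := px_indep hM hy J hJ hJr
  have h1 := hC' _ h0 v (Finset.mem_union_left _ hv)
  have h2 := att_deg hy (hJr v hv)
  have h3 := Finset.card_filter_add_card_filter_not (s := att G L y) (fun w => G.Adj v w)
  omega

theorem px_deg [Fintype V] {G : SimpleGraph V} [DecidableRel G.Adj] {k : ℕ}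
    (hC' : ∀ I : Finset V, G.IsIndepSet (I : Set V) → ∀ v ∈ I, I.card + k ≤ dU G Finset.univ v + 2)
    {j : ℕ} {L : List (List V)} (hM : IsMax G j L) {y : V} (hy : y ∈ unc L) {v : V}
    (hv : v ∈ comp G L y) :
    k + ((att G L y).filter (fun w => ¬ G.Adj v w)).card ≤ dU G (unc L) v + 1 := by
  have h := att_surplus hC' hM hy {v} (by simp [SimpleGraph.IsIndepSet]) (by
    intro x hx
    rw [Finset.mem_singleton] at hx
    rw [hx]
    exact (mem_comp.1 hv).2) (v := v) (by simp)
  simp only [Finset.card_singleton] at h
  omega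

theorem px_nbr [Fintype V] {G : SimpleGraph V} {L : List (List V)} {y v z : V}
    (hv : v ∈ comp G L y) (hz : z ∈ unc L) (h : G.Adj v z) : z ∈ comp G L y := by
  rw [mem_comp] at hv ⊢
  exact ⟨hz, Relation.ReflTransGen.tail hv.2 ⟨hv.1, hz, h⟩⟩

/-- a path with few vertices can be prolonged at its head -/
theorem px_extend [Fintype V] {G : SimpleGraph V} [DecidableRel G.Adj] {L : List (List V)} {y v : V}
    {t : List V} (hv : v ∈ comp G L y) (hd : t.length < dU G (unc L) v) :
    ∃ z ∈ comp G L y, G.Adj v z ∧ z ∉ v :: t := by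
  by_contra hcon
  push Not at hcon
  have h1 : (unc L).filter (fun w => G.Adj v w) ⊆ t.toFinset := by
    intro w hw
    rw [Finset.mem_filter] at hw
    have h2 := hcon w (px_nbr hv hw.1 hw.2) hw.2
    rcases List.mem_cons.1 h2 with h3 | h3
    · exact absurd (h3 ▸ hw.2) (G.loopless.irrefl v)
    · exact List.mem_toFinset.2 h3
  have h2 := (Finset.card_le_card h1).trans (List.toFinset_card_le t)
  unfold dU at hd
  omega

/-- the component contains paths with any number `m ≤ k` of vertices -/
theorem path_exists [Fintype V] {G : SimpleGraph V} [DecidableRel G.Adj] {k : ℕ}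
    (hC' : ∀ I : Finset V, G.IsIndepSet (I : Set V) → ∀ v ∈ I, I.card + k ≤ dU G Finset.univ v + 2)
    {j : ℕ} {L : List (List V)} (hM : IsMax G j L) {y : V} (hy : y ∈ unc L) {m : ℕ}
    (hm : 1 ≤ m) (hmk : m ≤ k) :
    ∃ X x1 x2, Seg G X x1 x2 ∧ X.Nodup ∧ (∀ z ∈ X, z ∈ comp G L y) ∧ X.length = m := by
  induction m with
  | zero => omega
  | succ m ih =>
    rcases Nat.eq_zero_or_pos m with rfl | hm0
    · refine ⟨[y], y, y, ⟨by simp, rfl, rfl⟩, by simp, ?_, rfl⟩
      intro z hz
      rw [List.mem_singleton] at hz
      rw [hz]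
      exact mem_comp.2 ⟨hy, Relation.ReflTransGen.refl⟩
    · obtain ⟨X, x1, x2, hX, hXn, hXc, hXl⟩ := ih hm0 (by omega)
      rcases X with _ | ⟨v, t⟩
      · simp at hXl
        omega
      have hv : v ∈ comp G L y := hXc v (by simp)
      have h1 := px_deg hC' hM hy hv
      have h2 : t.length < dU G (unc L) v := by
        rw [List.length_cons] at hXl
        omega
      obtain ⟨z, hz, hvz, hzn⟩ := px_extend hv h2
      refine ⟨z :: v :: t, z, x2, ⟨?_, rfl, ?_⟩, List.nodup_cons.2 ⟨hzn, hXn⟩, ?_, ?_⟩
      · rw [List.isChain_cons_cons]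
        exact ⟨hvz.symm, hX.ch⟩
      · rw [List.getLast?_cons_cons]
        exact hX.lt
      · intro x hx
        rcases List.mem_cons.1 hx with rfl | hx
        · exact hz
        · exact hXc x hx
      · rw [List.length_cons, hXl]

/-- a component without a path on `k + 1` vertices is complete with `k` vertices, and all
attachments are full -/
theorem comp_clique [Fintype V] {G : SimpleGraph V} [DecidableRel G.Adj] {k : ℕ} (hk : 3 ≤ k)
    (hC' : ∀ I : Finset V, G.IsIndepSet (I : Set V) → ∀ v ∈ I, I.card + k ≤ dU G Finset.univ v + 2)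
    {j : ℕ} {L : List (List V)} (hM : IsMax G j L) {y : V} (hy : y ∈ unc L)
    (hno : ∀ X : List V, X.Nodup → X.IsChain G.Adj → (∀ z ∈ X, z ∈ comp G L y) → X.length ≤ k) :
    (comp G L y).card = k ∧ (∀ a ∈ comp G L y, ∀ b ∈ comp G L y, a ≠ b → G.Adj a b) ∧
      ∀ s ∈ att G L y, ∀ x ∈ comp G L y, G.Adj s x := by
  obtain ⟨X, x1, x2, hX, hXn, hXc, hXl⟩ := path_exists hC' hM hy (m := k) (by omega) le_rfl
  obtain ⟨W, hW⟩ : ∃ W, W = X.toFinset := ⟨_, rfl⟩
  have hWc : W.card = k := by rw [hW, List.toFinset_card_of_nodup hXn, hXl]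
  have hWR : ∀ w ∈ W, w ∈ comp G L y := by
    intro w hw
    rw [hW, List.mem_toFinset] at hw
    exact hXc w hw
  -- the head of a path through `W`
  have key : ∀ (v : V) (t : List V), (v :: t).Nodup → (v :: t).IsChain G.Adj →
      (∀ x ∈ v :: t, x ∈ W) → (v :: t).length = k →
      (∀ z ∈ unc L, G.Adj v z → z ∈ W) ∧ (∀ x ∈ W, v ≠ x → G.Adj v x) ∧
        ∀ s ∈ att G L y, G.Adj s v := by
    intro v t h1 h2 h3 h4
    have hv : v ∈ comp G L y := hWR v (h3 v (by simp))
    have hsub : (unc L).filter (fun w => G.Adj v w) ⊆ t.toFinset := by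
      intro z hz
      rw [Finset.mem_filter] at hz
      rw [List.mem_toFinset]
      by_contra hzt
      have hzv : z ≠ v := fun h => G.loopless.irrefl v (h ▸ hz.2)
      have h5 := hno (z :: v :: t) (by
        rw [List.nodup_cons]
        refine ⟨?_, h1⟩
        intro h
        rcases List.mem_cons.1 h with h | h
        · exact hzv h
        · exact hzt h) (by
        rw [List.isChain_cons_cons]
        exact ⟨hz.2.symm, h2⟩) (by
        intro x hx
        rcases List.mem_cons.1 hx with rfl | hx
        · exact px_nbr hv hz.1 hz.2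
        · exact hWR x (h3 x hx))
      rw [List.length_cons, h4] at h5
      omega
    have htc : t.toFinset.card + 1 = k := by
      rw [List.toFinset_card_of_nodup (List.nodup_cons.1 h1).2, ← List.length_cons (a := v), h4]
    have h6 := px_deg hC' hM hy hv
    have h7 := Finset.card_le_card hsub
    have h8 : (unc L).filter (fun w => G.Adj v w) = t.toFinset := by
      apply Finset.eq_of_subset_of_card_le hsub
      unfold dU at h6
      omega
    have h9 : (v :: t).toFinset = W := by
      apply Finset.eq_of_subset_of_card_le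
      · intro x hx
        exact h3 x (List.mem_toFinset.1 hx)
      · rw [List.toFinset_card_of_nodup h1, h4, hWc]
    refine ⟨?_, ?_, ?_⟩
    · intro z hz hvz
      have : z ∈ t.toFinset := by
        rw [← h8, Finset.mem_filter]
        exact ⟨hz, hvz⟩
      exact h3 z (List.mem_cons_of_mem _ (List.mem_toFinset.1 this))
    · intro x hx hvx
      rw [← h9, List.mem_toFinset] at hx
      rcases List.mem_cons.1 hx with h | h
      · exact absurd h.symm hvx
      · rw [← List.mem_toFinset, ← h8, Finset.mem_filter] at h
        exact h.2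
    · have h10 : ((att G L y).filter (fun w => ¬ G.Adj v w)).card = 0 := by
        unfold dU at h6
        rw [h8] at h6
        omega
      rw [Finset.card_eq_zero, Finset.filter_eq_empty_iff] at h10
      intro s hs
      have := h10 hs
      rw [not_not] at this
      exact this.symm
  -- every element of `W` is the head of such a path
  have hXW : ∀ x ∈ X, x ∈ W := fun x hx => by rw [hW, List.mem_toFinset]; exact hx
  have heads : ∀ w ∈ W, ∃ t : List V, (w :: t).Nodup ∧ (w :: t).IsChain G.Adj ∧
      (∀ x ∈ w :: t, x ∈ W) ∧ (w :: t).length = k := by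
    intro w hw
    rw [hW, List.mem_toFinset] at hw
    obtain ⟨A, B, hAB⟩ := List.append_of_mem hw
    rcases B with _ | ⟨z, B⟩
    · -- the last element
      refine ⟨A.reverse, ?_⟩
      have e : w :: A.reverse = X.reverse := by rw [hAB]; simp
      rw [e]
      refine ⟨List.nodup_reverse.2 hXn, ?_, fun x hx => hXW x (List.mem_reverse.1 hx), ?_⟩
      · rw [List.isChain_reverse]
        exact hX.ch.imp (fun _ _ h => h.symm)
      · rw [List.length_reverse, hXl]
    · rcases X with _ | ⟨v, t⟩
      · simp at hAB
      -- the head `v` is adjacent to `z`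
      have hvz : G.Adj v z := by
        refine (key v t hXn hX.ch hXW hXl).2.1 z (hXW z (by rw [hAB]; simp)) ?_
        rintro rfl
        rcases A with _ | ⟨a, A⟩
        · simp only [List.nil_append, List.cons.injEq] at hAB
          have e1 := List.mem_cons_self (a := v) (l := B)
          rw [← hAB.2] at e1
          exact (List.nodup_cons.1 hXn).1 e1
        · simp only [List.cons_append, List.cons.injEq] at hAB
          have e1 : v ∈ A ++ w :: v :: B := by simp
          rw [← hAB.2] at e1
          exact (List.nodup_cons.1 hXn).1 e1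
      have hsp : v :: t = (A ++ [w]) ++ (z :: B) := by rw [hAB]; simp
      have hn := hXn
      have hc := hX.ch
      rw [hsp, List.nodup_append] at hn
      rw [hsp, List.isChain_append] at hc
      refine ⟨A.reverse ++ (z :: B), ?_⟩
      have e : w :: (A.reverse ++ (z :: B)) = (A ++ [w]).reverse ++ (z :: B) := by simp
      rw [e]
      refine ⟨?_, ?_, ?_, ?_⟩
      · rw [List.nodup_append]
        refine ⟨List.nodup_reverse.2 hn.1, hn.2.1, fun a ha b hb => ?_⟩
        exact hn.2.2 a (List.mem_reverse.1 ha) b hb
      · rw [List.isChain_append]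
        refine ⟨?_, hc.2.1, ?_⟩
        · rw [List.isChain_reverse]
          exact hc.1.imp (fun _ _ h => h.symm)
        · intro a ha b hb
          rw [List.getLast?_reverse] at ha
          have hh : (A ++ [w]).head? = some v := by
            rcases A with _ | ⟨a', A⟩
            · simp only [List.nil_append, List.cons.injEq] at hAB
              simp [hAB.1]
            · simp only [List.cons_append, List.cons.injEq] at hAB
              simp [hAB.1]
          rw [hh] at ha
          simp at ha hb
          rw [← ha, ← hb]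
          exact hvz
      · intro x hx
        apply hXW
        rw [hsp]
        rw [List.mem_append, List.mem_reverse] at hx
        exact List.mem_append.2 hx
      · rw [List.length_append, List.length_reverse, ← List.length_append, ← hsp]
        exact hXl
  have all : ∀ w ∈ W, (∀ z ∈ unc L, G.Adj w z → z ∈ W) ∧ (∀ x ∈ W, w ≠ x → G.Adj w x) ∧
      ∀ s ∈ att G L y, G.Adj s w := by
    intro w hw
    obtain ⟨t, h1, h2, h3, h4⟩ := heads w hw
    exact key w t h1 h2 h3 h4
  -- the component is `W`
  obtain ⟨w0, hw0⟩ : W.Nonempty := by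
    rw [← Finset.card_pos, hWc]
    omega
  have hcl : ∀ x, Reach G (unc L) w0 x → x ∈ W := by
    intro x hx
    induction hx with
    | refl => exact hw0
    | tail _ hbc ih => exact (all _ ih).1 _ hbc.2.1 hbc.2.2
  have hRW : comp G L y = W := by
    ext x
    constructor
    · intro hx
      apply hcl
      exact Relation.ReflTransGen.trans (Reach.symm (mem_comp.1 (hWR w0 hw0)).2) (mem_comp.1 hx).2
    · exact hWR x
  rw [hRW]
  exact ⟨hWc, fun a ha b hb hab => (all a ha).2.1 b hb hab, fun s hs x hx => (all x hx).2.2 s hs⟩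

end Pool.Agent.TFX
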