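import Pool.Agent.TFN.Heavy
import Pool.Agent.TFN.Select

/-! X7: choosing the cycle and the vertices on the other cycles. -/

namespace Pool.Agent.TFX

open List Pool.Agent.TF82 Pool.Agent.TFC Pool.Agent.TFB Pool.Agent.TFN

universe u

set_option linter.unusedSectionVars false
set_option linter.unusedVariables false

variable {V : Type u} [DecidableEq V]

theorem pk_nodup {G : SimpleGraph V} {F : List (List V)} (hF : Fam G F) : F.Nodup := by
  have h2 := (List.nodup_flatten.1 hF.nod).2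
  refine List.Pairwise.imp_of_mem ?_ h2
  intro a b ha hb hd hab
  subst hab
  have h3 := (hF.cyc a ha).2.1
  obtain ⟨x, hx⟩ : ∃ x, x ∈ a := List.exists_mem_of_length_pos (by omega)
  exact hd hx hx

/-- take `c` with the most elements of `Sf`; drop the `s` with `prv F s ∈ heavy G e c c'`
(`heavy_count` with `w = 4 e ^ 2`, `prv_inj`) -/
theorem pick {G : SimpleGraph V} [DecidableRel G.Adj] {F : List (List V)} {e : ℕ}
    (he : 1 ≤ e) (hF : Fam G F) (hN : NoMerge G F (8 * e ^ 2)) (hne : F ≠ []) (Sf : Finset V)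
    (hSf : ∀ s ∈ Sf, s ∈ F.flatten) :
    ∃ c ∈ F, ∃ S ⊆ Sf, (∀ s ∈ S, s ∈ c) ∧
      (∀ s ∈ S, ∀ c' ∈ F, c' ≠ c → e * nb G c' (prv F s) < c'.length) ∧
      Sf.card ≤ F.length * (S.card + F.length * (2 * e * (c.length / (4 * e ^ 2) + 1))) := by
  have hFn := pk_nodup hF
  have hScard : F.toFinset.card = F.length := List.toFinset_card_of_nodup hFn
  have hSne : F.toFinset.Nonempty := by
    rw [← Finset.card_pos, hScard]
    exact List.length_pos_of_ne_nil hne
  obtain ⟨c, hcS, hmax⟩ := Finset.exists_max_image F.toFinset (fun c => (Sf ∩ c.toFinset).card) hSne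
  have hc : c ∈ F := List.mem_toFinset.1 hcS
  obtain ⟨M, hM⟩ : ∃ M, M = 2 * e * (c.length / (4 * e ^ 2) + 1) := ⟨_, rfl⟩
  have h1 : Sf.card ≤ F.length * (Sf ∩ c.toFinset).card := by
    have h : Sf ⊆ F.toFinset.biUnion fun c => Sf ∩ c.toFinset := by
      intro x hx
      obtain ⟨d, hd, hxd⟩ := List.mem_flatten.1 (hSf x hx)
      exact Finset.mem_biUnion.2 ⟨d, List.mem_toFinset.2 hd, by simp [hx, hxd]⟩
    refine (Finset.card_le_card h).trans (Finset.card_biUnion_le.trans ?_)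
    refine (Finset.sum_le_card_nsmul F.toFinset _ _ hmax).trans ?_
    rw [hScard, smul_eq_mul]
  obtain ⟨Bd, hBd⟩ : ∃ Bd : Finset V, Bd = (F.toFinset.erase c).biUnion
      (fun c' => (Sf ∩ c.toFinset).filter (fun s => prv F s ∈ heavy G e c c')) := ⟨_, rfl⟩
  have h2 : Bd.card ≤ F.length * M := by
    rw [hBd]
    refine Finset.card_biUnion_le.trans ?_
    refine (Finset.sum_le_card_nsmul _ _ M (fun c' hc' => ?_)).trans ?_
    · rw [Finset.mem_erase, List.mem_toFinset] at hc'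
      have h3 := heavy_count hF hN he (w := 4 * e ^ 2) (by nlinarith) (by nlinarith) hc hc'.2 (Ne.symm hc'.1)
      rw [hM]
      refine le_trans ?_ h3
      rw [← Finset.card_image_of_injOn (s := (Sf ∩ c.toFinset).filter (fun s => prv F s ∈ heavy G e c c'))
        (f := prv F)]
      · refine Finset.card_le_card ?_
        intro y hy
        obtain ⟨s, hs, rfl⟩ := Finset.mem_image.1 hy
        exact (Finset.mem_filter.1 hs).2
      · intro a ha b hb hab
        rw [Finset.mem_coe, Finset.mem_filter, Finset.mem_inter] at ha hb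
        exact prv_inj hF (hSf a ha.1.1) (hSf b hb.1.1) hab
    · rw [smul_eq_mul]
      refine Nat.mul_le_mul_right _ ?_
      exact (Finset.card_le_card (Finset.erase_subset _ _)).trans hScard.le
  refine ⟨c, hc, (Sf ∩ c.toFinset) \ Bd, ?_, ?_, ?_, ?_⟩
  · exact Finset.sdiff_subset.trans Finset.inter_subset_left
  · intro s hs
    exact List.mem_toFinset.1 (Finset.mem_inter.1 (Finset.mem_sdiff.1 hs).1).2
  · intro s hs c' hc' hcc
    obtain ⟨hs1, hs2⟩ := Finset.mem_sdiff.1 hs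
    have hsc : s ∈ c := List.mem_toFinset.1 (Finset.mem_inter.1 hs1).2
    have hpc : prv F s ∈ c := by
      rw [prv_eq hF hc hsc]
      exact List.prev_mem _ _ _
    by_contra hcon
    refine hs2 ?_
    rw [hBd]
    refine Finset.mem_biUnion.2 ⟨c', Finset.mem_erase.2 ⟨hcc, List.mem_toFinset.2 hc'⟩, ?_⟩
    refine Finset.mem_filter.2 ⟨hs1, ?_⟩
    exact Finset.mem_filter.2 ⟨List.mem_toFinset.2 hpc, not_lt.1 hcon⟩
  · refine h1.trans (Nat.mul_le_mul_left _ ?_)
    rw [← hM]
    have h3 : (Sf ∩ c.toFinset).card ≤ ((Sf ∩ c.toFinset) \ Bd).card + Bd.card :=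
      Finset.card_le_card_sdiff_add_card
    omega

/-- `Z c'` = vertices of `c'` not heavy for any other cycle and not adjacent to `T`; then `select`
with `D = F.filter (· ≠ c)`, `m = k`; `c'.length > 8 e ^ 2` by `nm_len` -/
theorem choose_z [Nonempty V] {G : SimpleGraph V} [DecidableRel G.Adj] {F : List (List V)}
    {e k : ℕ} (hF : Fam G F) (hN : NoMerge G F (8 * e ^ 2)) (hk : F.length ≤ k)
    (he : 3 * k + 2 ≤ e) {c : List V} (hc : c ∈ F) (T : Finset V) (hTk : T.card ≤ k + 1)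
    (hT : ∀ p ∈ T, ∀ c' ∈ F, c' ≠ c → e * nb G c' p < c'.length) :
    ∃ z : List V → V, (∀ c' ∈ F, c' ≠ c → z c' ∈ c' ∧ (∀ p ∈ T, ¬ G.Adj p (z c')) ∧
        ∀ c'' ∈ F, c'' ≠ c' → e * nb G c'' (z c') < c''.length) ∧
      ∀ c' ∈ F, c' ≠ c → ∀ c'' ∈ F, c'' ≠ c → c' ≠ c'' → ¬ G.Adj (z c') (z c'') := by
  have hFn := pk_nodup hF
  have hScard : F.toFinset.card = F.length := List.toFinset_card_of_nodup hFn
  have he1 : 1 ≤ e := by omega
  have hccard : ∀ c ∈ F, c.toFinset.card = c.length := fun c hc =>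
    List.toFinset_card_of_nodup (hF.cyc c hc).1
  have hclen : ∀ c ∈ F, 0 < c.length := fun c hc => by
    have := (hF.cyc c hc).2.1
    omega
  have hheavy : ∀ c ∈ F, ∀ c' ∈ F, c ≠ c' → e * (heavy G e c c').card ≤ c.length := by
    intro c hc c' hc' hne
    have h1 := heavy_count hF hN he1 (w := 4 * e ^ 2) (by nlinarith) (by nlinarith) hc hc' hne
    have h2 : 4 * e ^ 2 * (c.length / (4 * e ^ 2)) ≤ c.length := Nat.mul_div_le _ _
    have h3 := nm_len hF hN hc
    obtain ⟨a, ha⟩ : ∃ a, a = c.length / (4 * e ^ 2) := ⟨_, rfl⟩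
    rw [← ha] at h1 h2
    have h4 : 2 * (e * (heavy G e c c').card) ≤ 2 * (e * (2 * e * (a + 1))) :=
      Nat.mul_le_mul_left 2 (Nat.mul_le_mul_left e h1)
    have h5 : 2 * (e * (2 * e * (a + 1))) = 4 * e ^ 2 * a + 4 * e ^ 2 := by ring
    omega
  obtain ⟨B, hB⟩ : ∃ B : List V → Finset V,
      B = fun c' => (F.toFinset.erase c').biUnion (fun c'' => heavy G e c' c'') := ⟨_, rfl⟩
  obtain ⟨N, hNd⟩ : ∃ N : List V → Finset V,
      N = fun c' => T.biUnion (fun p => c'.toFinset.filter (fun y => G.Adj p y)) := ⟨_, rfl⟩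
  obtain ⟨Z, hZ⟩ : ∃ Z : List V → Finset V, Z = fun c' => c'.toFinset \ (B c' ∪ N c') := ⟨_, rfl⟩
  have hBc : ∀ c' ∈ F, e * (B c').card ≤ k * c'.length := by
    intro c' hc'
    rw [hB]
    refine (Nat.mul_le_mul_left e Finset.card_biUnion_le).trans ?_
    rw [Finset.mul_sum]
    refine (Finset.sum_le_card_nsmul _ _ c'.length (fun c'' hc'' => ?_)).trans ?_
    · rw [Finset.mem_erase, List.mem_toFinset] at hc''
      exact hheavy c' hc' c'' hc''.2 (Ne.symm hc''.1)
    · rw [smul_eq_mul]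
      refine Nat.mul_le_mul_right _ ?_
      exact ((Finset.card_le_card (Finset.erase_subset _ _)).trans hScard.le).trans hk
  have hNc : ∀ c' ∈ F, c' ≠ c → e * (N c').card ≤ (k + 1) * c'.length := by
    intro c' hc' hne
    rw [hNd]
    refine (Nat.mul_le_mul_left e Finset.card_biUnion_le).trans ?_
    rw [Finset.mul_sum]
    refine (Finset.sum_le_card_nsmul _ _ c'.length (fun p hp => ?_)).trans ?_
    · exact (hT p hp c' hc' hne).le
    · rw [smul_eq_mul]
      exact Nat.mul_le_mul_right _ hTk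
  have hZs : ∀ c', Z c' ⊆ c'.toFinset := by
    intro c'
    rw [hZ]
    exact Finset.sdiff_subset
  have hZn : ∀ c', ∀ x ∈ Z c', ∀ c'' ∈ F, c'' ≠ c' → e * nb G c'' x < c''.length := by
    intro c' x hx c'' hc'' hne
    have hxc : x ∈ c'.toFinset := hZs c' hx
    rw [hZ] at hx
    have h1 := (Finset.mem_sdiff.1 hx).2
    rw [hB] at h1
    by_contra hcon
    refine h1 (Finset.mem_union_left _
      (Finset.mem_biUnion.2 ⟨c'', Finset.mem_erase.2 ⟨hne, List.mem_toFinset.2 hc''⟩, ?_⟩))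
    exact Finset.mem_filter.2 ⟨hxc, not_lt.1 hcon⟩
  have hZT : ∀ c', ∀ x ∈ Z c', ∀ p ∈ T, ¬ G.Adj p x := by
    intro c' x hx p hp hadj
    have hxc : x ∈ c'.toFinset := hZs c' hx
    rw [hZ] at hx
    have h1 := (Finset.mem_sdiff.1 hx).2
    rw [hNd] at h1
    exact h1 (Finset.mem_union_right _ (Finset.mem_biUnion.2 ⟨p, hp, Finset.mem_filter.2 ⟨hxc, hadj⟩⟩))
  have hZc : ∀ c' ∈ F, c' ≠ c → k * c'.length < e * (Z c').card := by
    intro c' hc' hne
    have h1 : c'.toFinset.card ≤ (c'.toFinset \ (B c' ∪ N c')).card + (B c' ∪ N c').card :=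
      Finset.card_le_card_sdiff_add_card
    have h2 := Finset.card_union_le (B c') (N c')
    have h3 := hBc c' hc'
    have h4 := hNc c' hc' hne
    have h5 := hclen c' hc'
    rw [hccard c' hc'] at h1
    have h6 : e * c'.length ≤ e * (c'.toFinset \ (B c' ∪ N c')).card + (e * (B c').card + e * (N c').card) := by
      rw [← Nat.mul_add, ← Nat.mul_add]
      exact Nat.mul_le_mul_left e (h1.trans (Nat.add_le_add_left h2 _))
    have h7 := Nat.mul_le_mul_right c'.length he
    have h8 : (3 * k + 2) * c'.length = k * c'.length + k * c'.length + (k + 1) * c'.length + c'.length := by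
      ring
    rw [hZ]
    dsimp only
    omega
  obtain ⟨D, hD⟩ : ∃ D : List (List V), D = F.filter (fun c' => decide (c' ≠ c)) := ⟨_, rfl⟩
  have hmD : ∀ c', c' ∈ D ↔ c' ∈ F ∧ c' ≠ c := by
    intro c'
    rw [hD, List.mem_filter, decide_eq_true_eq]
  obtain ⟨z, hz1, hz2⟩ := select (G := G) (e := e) (m := k) he1 Z D
    (by rw [hD]; exact hFn.filter _)
    (by rw [hD]; exact (List.length_filter_le _ _).trans hk)
    (fun c' hc' => hZs c')
    (fun c' hc' c'' hc'' hne x hx => hZn c' x hx c'' ((hmD c'').1 hc'').1 (Ne.symm hne))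
    (fun c' hc' => hZc c' ((hmD c').1 hc').1 ((hmD c').1 hc').2)
  refine ⟨z, ?_, ?_⟩
  · intro c' hc' hne
    have h1 := hz1 c' ((hmD c').2 ⟨hc', hne⟩)
    exact ⟨List.mem_toFinset.1 (hZs c' h1), hZT c' _ h1, hZn c' _ h1⟩
  · intro c' hc' hne c'' hc'' hne' hcc
    exact hz2 c' ((hmD c').2 ⟨hc', hne⟩) c'' ((hmD c'').2 ⟨hc'', hne'⟩) hcc

end Pool.Agent.TFX
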