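import Pool.Agent.TFN.Defs

/-! X2: counting edges that do not cross; counting by chunks; small subsets. -/

namespace Pool.Agent.TFX

open List Pool.Agent.TF82 Pool.Agent.TFC Pool.Agent.TFB Pool.Agent.TFN

universe u

set_option linter.unusedSectionVars false
set_option linter.unusedVariables false

variable {V : Type u} [DecidableEq V]

private theorem exists_first (p : V → Prop) [DecidablePred p] : ∀ (P : List V), (∃ a ∈ P, p a) →
    ∃ P1 a P2, P = P1 ++ a :: P2 ∧ p a ∧ ∀ b ∈ P1, ¬ p b := by
  intro P
  induction P with
  | nil => rintro ⟨a, ha, -⟩; simp at ha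
  | cons c P ih =>
      intro h
      by_cases hc : p c
      · exact ⟨[], c, P, rfl, hc, by simp⟩
      · have h' : ∃ a ∈ P, p a := by
          obtain ⟨a, ha, hpa⟩ := h
          rcases List.mem_cons.1 ha with rfl | ha
          · exact absurd hpa hc
          · exact ⟨a, ha, hpa⟩
        obtain ⟨P1, a, P2, e, ha, hb⟩ := ih h'
        refine ⟨c :: P1, a, P2, by rw [e]; rfl, ha, ?_⟩
        intro b hbm
        rcases List.mem_cons.1 hbm with rfl | hbm
        · exact hc
        · exact hb b hbm

/-- Induction on `ws` with `P` general: if `p0` is the first element of `P` with `A p0 x`, then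
the later members of `ws` see only elements of `P` up to `p0`. -/
theorem stack_sum (A : V → V → Prop) [DecidableRel A] : ∀ (ws P : List V),
    (∀ P1 p P2 q P3 w1 x w2 y w3, P = P1 ++ p :: (P2 ++ q :: P3) →
      ws = w1 ++ x :: (w2 ++ y :: w3) → A p x → A q y → False) →
    (ws.map (fun x => (P.filter (fun p => decide (A p x))).length)).sum ≤
      P.length + ws.length := by
  intro ws
  induction ws with
  | nil => intro P _; simp
  | cons x ws ih =>
      intro P h
      by_cases hx : ∃ p ∈ P, A p x
      · obtain ⟨P1, p0, P2, hP, hp0, hP1⟩ := exists_first (fun p => A p x) P hx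
        have h1 := ih (P1 ++ [p0]) (by
          intro Q1 p Q2 q Q3 w1 x' w2 y w3 e1 e2 a1 a2
          refine h Q1 p Q2 q (Q3 ++ P2) (x :: w1) x' w2 y w3 ?_ (by rw [e2]; rfl) a1 a2
          have : P = (P1 ++ [p0]) ++ P2 := by rw [hP]; simp
          rw [this, e1]; simp)
        have h2 : (ws.map (fun y => (P.filter (fun p => decide (A p y))).length))
            = (ws.map (fun y => ((P1 ++ [p0]).filter (fun p => decide (A p y))).length)) := by
          apply List.map_congr_left
          intro y hy
          have : P2.filter (fun p => decide (A p y)) = [] := by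
            rw [List.filter_eq_nil_iff]
            intro q hq hA
            have hA' : A q y := of_decide_eq_true hA
            obtain ⟨Q2, Q3, e3⟩ := List.append_of_mem hq
            obtain ⟨w2, w3, e4⟩ := List.append_of_mem hy
            exact h P1 p0 Q2 q Q3 [] x w2 y w3 (by rw [hP, e3]) (by rw [e4]; rfl) hp0 hA'
          have e5 : P = (P1 ++ [p0]) ++ P2 := by rw [hP]; simp
          rw [e5, List.filter_append, this, List.append_nil]
        have h3 : (P.filter (fun p => decide (A p x))).length ≤ 1 + P2.length := by
          have e6 : P1.filter (fun p => decide (A p x)) = [] := by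
            rw [List.filter_eq_nil_iff]
            intro q hq hA
            exact hP1 q hq (of_decide_eq_true hA)
          rw [hP, List.filter_append, e6, List.nil_append]
          have := List.length_filter_le (fun p => decide (A p x)) (p0 :: P2)
          rw [List.length_cons] at this
          omega
        rw [List.map_cons, List.sum_cons, h2, List.length_cons]
        have e7 : P.length = P1.length + 1 + P2.length := by
          rw [hP]; simp; omega
        have e8 : (P1 ++ [p0]).length = P1.length + 1 := by simp
        omega
      · have h1 := ih P (by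
          intro Q1 p Q2 q Q3 w1 x' w2 y w3 e1 e2 a1 a2
          exact h Q1 p Q2 q Q3 (x :: w1) x' w2 y w3 e1 (by rw [e2]; rfl) a1 a2)
        have h2 : P.filter (fun p => decide (A p x)) = [] := by
          rw [List.filter_eq_nil_iff]
          intro q hq hA
          exact hx ⟨q, hq, of_decide_eq_true hA⟩
        rw [List.map_cons, List.sum_cons, h2, List.length_cons, List.length_nil]
        omega

private theorem chunk_aux (f : V → ℕ) (w C : ℕ) (hw : 1 ≤ w) : ∀ (N : ℕ) (c : List V),
    c.length ≤ N →
    (∀ A W B : List V, c = A ++ (W ++ B) → W.length ≤ w → (W.map f).sum ≤ C) →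
    (c.map f).sum ≤ (c.length / w + 1) * C := by
  intro N
  induction N with
  | zero =>
      intro c hc h
      have : c = [] := List.length_eq_zero_iff.1 (by omega)
      subst this
      simp
  | succ N ih =>
      intro c hc h
      by_cases hcw : c.length < w
      · have h1 := h [] c [] (by simp) hcw.le
        calc (c.map f).sum ≤ C := h1
          _ = 1 * C := (one_mul C).symm
          _ ≤ (c.length / w + 1) * C := Nat.mul_le_mul_right C (Nat.le_add_left 1 _)
      · have hle : w ≤ c.length := by omega
        have h1 := h [] (c.take w) (c.drop w) (by simp) (by simp)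
        have h2 := ih (c.drop w) (by rw [List.length_drop]; omega) (by
          intro A W B e hW
          exact h (c.take w ++ A) W B (by
            rw [List.append_assoc, ← e, List.take_append_drop]) hW)
        have e : (c.map f).sum = ((c.take w).map f).sum + ((c.drop w).map f).sum := by
          rw [← List.sum_append, ← List.map_append, List.take_append_drop]
        rw [e]
        rw [List.length_drop] at h2
        have e2 : c.length / w = (c.length - w) / w + 1 := by
          have : c.length = (c.length - w) + w := by omega
          conv_lhs => rw [this]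
          rw [Nat.add_div_right _ (by omega)]
        rw [e2]
        calc _ ≤ C + ((c.length - w) / w + 1) * C := Nat.add_le_add h1 h2
          _ = ((c.length - w) / w + 1 + 1) * C := by ring

theorem chunk_sum (f : V → ℕ) (w C : ℕ) (hw : 1 ≤ w) : ∀ c : List V,
    (∀ A W B : List V, c = A ++ (W ++ B) → W.length ≤ w → (W.map f).sum ≤ C) →
    (c.map f).sum ≤ (c.length / w + 1) * C := fun c => chunk_aux f w C hw c.length c le_rfl

/-- remove an element with `f` maximal -/
theorem small_subset (f : V → ℕ) (m : ℕ) (P : Finset V) (hm : m ≤ P.card) :
    ∃ T ⊆ P, T.card = m ∧ P.card * ∑ x ∈ T, f x ≤ m * ∑ x ∈ P, f x := by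
  obtain ⟨N, hN⟩ : ∃ N, P.card = N := ⟨_, rfl⟩
  induction N generalizing P with
  | zero =>
      have : P = ∅ := Finset.card_eq_zero.1 hN
      subst this
      refine ⟨∅, le_rfl, ?_, by simp⟩
      simp at hm ⊢
      exact hm.symm
  | succ N ih =>
      by_cases hmN : m = P.card
      · exact ⟨P, le_rfl, hmN.symm, by rw [hmN]⟩
      · have hne : P.Nonempty := Finset.card_pos.1 (by omega)
        obtain ⟨y, hy, hmax⟩ := P.exists_max_image f hne
        have hcard : (P.erase y).card = N := by rw [Finset.card_erase_of_mem hy]; omega
        obtain ⟨T, hT, hTc, hsum⟩ := ih (P.erase y) (by omega) hcard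
        refine ⟨T, hT.trans (Finset.erase_subset _ _), hTc, ?_⟩
        rcases Nat.eq_zero_or_pos N with h0 | hpos
        · have hm0 : m = 0 := by omega
          have : T = ∅ := Finset.card_eq_zero.1 (by omega)
          subst this
          simp
        · have e1 : ∑ x ∈ P, f x = ∑ x ∈ P.erase y, f x + f y :=
            (Finset.sum_erase_add P f hy).symm
          have e2 : ∑ x ∈ P.erase y, f x ≤ N * f y := by
            calc ∑ x ∈ P.erase y, f x ≤ ∑ x ∈ P.erase y, f y :=
                  Finset.sum_le_sum (fun x hx => hmax x (Finset.mem_of_mem_erase hx))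
              _ = N * f y := by rw [Finset.sum_const, hcard, smul_eq_mul]
          rw [hN]
          rw [hcard] at hsum
          have e3 : (N + 1) * ∑ x ∈ P.erase y, f x ≤ N * ∑ x ∈ P, f x := by
            rw [e1]; nlinarith
          have e4 : N * ((N + 1) * ∑ x ∈ T, f x) ≤ N * (m * ∑ x ∈ P, f x) := by
            calc N * ((N + 1) * ∑ x ∈ T, f x) = (N + 1) * (N * ∑ x ∈ T, f x) := by ring
              _ ≤ (N + 1) * (m * ∑ x ∈ P.erase y, f x) := Nat.mul_le_mul_left _ hsum
              _ = m * ((N + 1) * ∑ x ∈ P.erase y, f x) := by ring
              _ ≤ m * (N * ∑ x ∈ P, f x) := Nat.mul_le_mul_left _ e3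
              _ = N * (m * ∑ x ∈ P, f x) := by ring
          exact Nat.le_of_mul_le_mul_left e4 hpos

end Pool.Agent.TFX
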