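import Pool.Agent.TFX.Pair
import Pool.Agent.TFX.Stack

/-! X3: the edges from predecessors of full attachments into a window. -/

namespace Pool.Agent.TFX

open List Pool.Agent.TF82 Pool.Agent.TFC Pool.Agent.TFB Pool.Agent.TFN

universe u

set_option linter.unusedSectionVars false
set_option linter.unusedVariables false

variable {V : Type u} [DecidableEq V]

theorem sublist_two {P R : List V} (h : P <+ R) {P1 P2 P3 : List V} {p q : V}
    (hP : P = P1 ++ p :: (P2 ++ q :: P3)) :
    ∃ L1 L2 L3, R = L1 ++ p :: (L2 ++ q :: L3) := by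
  have h1 : [p, q] <+ P := by
    rw [hP]
    refine List.Sublist.trans ?_ (List.sublist_append_right P1 _)
    refine List.Sublist.cons_cons p ?_
    refine List.Sublist.trans ?_ (List.sublist_append_right P2 _)
    exact List.Sublist.cons_cons q (List.nil_sublist _)
  have h2 := h1.trans h
  rw [List.cons_sublist_iff] at h2
  obtain ⟨r1, r2, hR, hp, hq⟩ := h2
  rw [List.singleton_sublist] at hq
  obtain ⟨L1, La, rfl⟩ := List.append_of_mem hp
  obtain ⟨Lb, L3, rfl⟩ := List.append_of_mem hq
  exact ⟨L1, La ++ Lb, L3, by rw [hR]; simp⟩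

/-- the elements of `S.image (prv L)` inside `W` count at most `W.length ^ 2`; for those in `R`
(kept in the order of `R`) use `stack_sum` and `pair_window` -/
theorem window_bound {G : SimpleGraph V} [DecidableRel G.Adj] {j : ℕ} {L : List (List V)}
    (hM : IsMax G j L) {c : List V} (hc : c ∈ L) {W R : List V} (hr : c ~r (W ++ R))
    (S : Finset V) (hS : ∀ s ∈ S, s ∈ c) {X : List V} {x1 x2 : V} (hX : Seg G X x1 x2)
    (hXn : X.Nodup) (hXd : ∀ z ∈ X, z ∉ L.flatten)
    (hfull : ∀ s ∈ S, G.Adj s x1 ∧ G.Adj s x2) (hW : W.length ≤ X.length + 1) :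
    (W.map (fun x => ((S.image (prv L)).filter (fun p => G.Adj p x)).card)).sum ≤
      S.card + W.length + W.length ^ 2 := by
  have hcn : c.Nodup := (hM.fam.cyc c hc).1
  have hWR : (W ++ R).Nodup := hr.perm.nodup_iff.1 hcn
  have hRn : R.Nodup := (List.nodup_append.1 hWR).2.1
  set D := S.image (prv L) with hD
  have hDc : ∀ p ∈ D, p ∈ c := by
    intro p hp
    rw [hD, Finset.mem_image] at hp
    obtain ⟨s, hs, rfl⟩ := hp
    rw [prv_eq hM.fam hc (hS s hs)]
    exact List.prev_mem _ _ _
  obtain ⟨P, hPdef⟩ : ∃ P, P = R.filter (fun p => decide (p ∈ D)) := ⟨_, rfl⟩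
  have hPR : P <+ R := by rw [hPdef]; exact List.filter_sublist
  have hPn : P.Nodup := hRn.sublist hPR
  have hPmem : ∀ p ∈ P, p ∈ D := by
    intro p hp
    rw [hPdef, List.mem_filter] at hp
    simpa using hp.2
  have hPlen : P.length ≤ S.card :=
    (nodup_len_le hPn hPmem).trans Finset.card_image_le
  have hstack := stack_sum (fun p x => G.Adj p x) W P (by
    intro P1 p P2 q P3 w1 x w2 y w3 hP hws hpx hqy
    obtain ⟨L1, L2, L3, hRe⟩ := sublist_two hPR hP
    have hpD := hPmem p (by rw [hP]; simp)
    have hqD := hPmem q (by rw [hP]; simp)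
    rw [hD, Finset.mem_image] at hpD hqD
    obtain ⟨sp, hsp, hsp'⟩ := hpD
    obtain ⟨sq, hsq, hsq'⟩ := hqD
    have hr' : c ~r (w1 ++ x :: (w2 ++ y :: (w3 ++ (L1 ++ p :: (L2 ++ q :: L3))))) := by
      have e : W ++ R = w1 ++ x :: (w2 ++ y :: (w3 ++ (L1 ++ p :: (L2 ++ q :: L3)))) := by
        rw [hws, hRe]; simp
      rw [← e]; exact hr
    have h1 := pair_window hM hc hr' (hS sp hsp) (hS sq hsq) hsp' hsq' hpx hqy hX hXn hXd
      (hfull sp hsp).1 (hfull sq hsq).2
    have h2 : W.length = w1.length + (w2.length + (w3.length + 1) + 1) := by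
      rw [hws]; simp
    omega)
  have hterm : ∀ x ∈ W, (D.filter (fun p => G.Adj p x)).card ≤
      (P.filter (fun p => decide (G.Adj p x))).length + W.length := by
    intro x _
    have hsub : D.filter (fun p => G.Adj p x) ⊆
        (P.filter (fun p => decide (G.Adj p x))).toFinset ∪ W.toFinset := by
      intro p hp
      rw [Finset.mem_filter] at hp
      rw [Finset.mem_union, List.mem_toFinset, List.mem_toFinset]
      have hpc := hr.perm.mem_iff.1 (hDc p hp.1)
      rcases List.mem_append.1 hpc with h | h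
      · exact Or.inr h
      · left
        rw [List.mem_filter, hPdef, List.mem_filter]
        exact ⟨⟨h, by simpa using hp.1⟩, by simpa using hp.2⟩
    calc (D.filter (fun p => G.Adj p x)).card ≤ _ := Finset.card_le_card hsub
      _ ≤ _ := Finset.card_union_le _ _
      _ ≤ _ := Nat.add_le_add (List.toFinset_card_le _) (List.toFinset_card_le _)
  have hsum : (W.map (fun x => (D.filter (fun p => G.Adj p x)).card)).sum ≤
      (W.map (fun x => (P.filter (fun p => decide (G.Adj p x))).length + W.length)).sum :=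
    List.sum_le_sum hterm
  have hsplit : (W.map (fun x => (P.filter (fun p => decide (G.Adj p x))).length + W.length)).sum =
      (W.map (fun x => (P.filter (fun p => decide (G.Adj p x))).length)).sum +
        W.length * W.length := by
    rw [List.sum_map_add]
    simp
  rw [hsplit] at hsum
  nlinarith

/-- double counting and `chunk_sum` -/
theorem nb_sum {G : SimpleGraph V} [DecidableRel G.Adj] {j : ℕ} {L : List (List V)}
    (hM : IsMax G j L) {c : List V} (hc : c ∈ L)
    (S : Finset V) (hS : ∀ s ∈ S, s ∈ c) {X : List V} {x1 x2 : V} (hX : Seg G X x1 x2)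
    (hXn : X.Nodup) (hXd : ∀ z ∈ X, z ∉ L.flatten)
    (hfull : ∀ s ∈ S, G.Adj s x1 ∧ G.Adj s x2) :
    ∑ p ∈ S.image (prv L), nb G c p ≤
      (c.length / (X.length + 1) + 1) * (S.card + (X.length + 1) + (X.length + 1) ^ 2) := by
  have hcn : c.Nodup := (hM.fam.cyc c hc).1
  have hdc : ∑ p ∈ S.image (prv L), nb G c p =
      (c.map (fun x => ((S.image (prv L)).filter (fun p => G.Adj p x)).card)).sum := by
    rw [← List.sum_toFinset _ hcn]
    unfold nb
    simp only [Finset.card_filter]
    exact Finset.sum_comm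
  rw [hdc]
  apply chunk_sum _ _ _ (by omega)
  intro A W B hAWB hWw
  have hr : c ~r (W ++ (B ++ A)) := by
    rw [hAWB, ← List.append_assoc W B A]
    exact List.isRotated_append
  have h := window_bound hM hc hr S hS hX hXn hXd hfull hWw
  refine h.trans ?_
  have h2 : W.length ^ 2 ≤ (X.length + 1) ^ 2 := Nat.pow_le_pow_left hWw 2
  omega

end Pool.Agent.TFX
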